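import Pool.Agent.Run7.h415.LV.Core

set_option autoImplicit false

/-!
# Removing the condition `N ≤ n ≤ 2N`
-/

namespace Run7.h415.LV

open Finset MeasureTheory Pool.Agent.TH705.DL
open Pool.Agent.TH445.MQ
open Run7.h415.MQP
open Pool.Agent.W200.MR (pw)

theorem cut_sum (η : ℝ) (hη : 0 < η) (hη1 : η ≤ 1) : ∃ C : ℝ, 1 ≤ C ∧
    ∀ N : ℕ, 1 ≤ N → ∀ X : AF, FS X → ∀ (S : Finset ℝ) (W : ℝ),
      (∀ ξ : ℝ, ∑ t ∈ S, ‖ev X (t + ξ)‖ ≤ W) →
      ∑ t ∈ S, ‖cut N X t‖ ≤ C * (N : ℝ) ^ η * W := by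
  have hint : Integrable (fun t : ℝ => (1 + |t|) ^ (-(1 + η))) := by
    have := integrable_one_add_norm (E := ℝ) (μ := volume) (r := 1 + η) (by simp; exact hη)
    simpa [Real.norm_eq_abs] using this
  set c0 : ℝ := ∫ t : ℝ, (1 + |t|) ^ (-(1 + η)) with hc0
  have hc0nn : 0 ≤ c0 := integral_nonneg fun t => by positivity
  refine ⟨12 * c0 + 1, by linarith, ?_⟩
  intro N hN X hX S W hW
  have hN1 : (1 : ℝ) ≤ N := by exact_mod_cast hN
  have hW0 : 0 ≤ W := le_trans (sum_nonneg fun _ _ => by positivity) (hW 0)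
  obtain ⟨w, hwc, hwb, hwi⟩ := weights N hN η hη hη1
  set g : ℝ → ℝ := fun t => 12 * (N : ℝ) ^ η * (1 + |t|) ^ (-(1 + η)) with hg
  have hgi : Integrable g := hint.const_mul _
  have hg0 : ∀ t, 0 ≤ g t := fun t => by rw [hg]; positivity
  set G : ℝ := ∫ t, g t with hG
  have hGeq : G = 12 * (N : ℝ) ^ η * c0 := by rw [hG, hg, integral_const_mul]
  have hG0 : 0 ≤ G := integral_nonneg hg0
  obtain ⟨B, hB0, hB⟩ := ev_bdd hX
  have hevc := ev_cont hX
  have hwint : Integrable w := by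
    refine hgi.mono' hwc.aestronglyMeasurable (Filter.Eventually.of_forall hwb)
  -- representation
  have hrep : ∀ τ : ℝ, cut N X τ = ∫ v, w v * ev X (τ + v) := by
    intro τ
    obtain ⟨x, hx⟩ := hX
    have e1 : ∀ v, w v * ev X (τ + v) = ∑ n ∈ Icc 1 x, (X n * pw τ n) * (w v * pw v n) := by
      intro v
      rw [ev_eq X x hx, mul_sum]
      apply sum_congr rfl
      intro n _
      rw [pw_add]
      ring
    simp only [e1]
    rw [integral_finsetSum _ (fun n _ => by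
      apply Integrable.const_mul
      refine hwint.mono ?_ ?_
      · apply Continuous.aestronglyMeasurable
        unfold Pool.Agent.W200.MR.pw
        fun_prop
      · refine Filter.Eventually.of_forall fun v => ?_
        rw [norm_mul, pw_norm, mul_one])]
    have e2 : ∀ n ∈ Icc 1 x, ∫ v, (X n * pw τ n) * (w v * pw v n) =
        if n ∈ Icc N (2 * N) then X n * pw τ n else 0 := by
      intro n hn
      rw [integral_const_mul, hwi n (mem_Icc.1 hn).1]
      split_ifs <;> simp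
    rw [sum_congr rfl e2, ← sum_filter]
    unfold cut
    symm
    apply sum_subset_zero_on_sdiff
    · intro n hn
      exact (mem_filter.1 hn).2
    · intro n hn
      rw [mem_sdiff, mem_filter, not_and] at hn
      have h1 : n ∉ Icc 1 x := fun h => hn.2 h hn.1
      have h2 : 1 ≤ n := le_trans hN (mem_Icc.1 hn.1).1
      rw [mem_Icc, not_and] at h1
      rw [hx n (by have := h1 h2; omega), zero_mul]
    · intro n _
      rfl
  have hIint : ∀ τ : ℝ, Integrable (fun v => g v * ‖ev X (τ + v)‖) := by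
    intro τ
    refine (hgi.mul_const B).mono ?_ ?_
    · apply AEStronglyMeasurable.mul hgi.aestronglyMeasurable
      apply Continuous.aestronglyMeasurable
      fun_prop
    · refine Filter.Eventually.of_forall fun v => ?_
      rw [Real.norm_eq_abs, Real.norm_eq_abs, abs_of_nonneg (mul_nonneg (hg0 v) (norm_nonneg _)),
        abs_of_nonneg (mul_nonneg (hg0 v) hB0)]
      exact mul_le_mul_of_nonneg_left (hB _) (hg0 v)
  have hcI : ∀ τ : ℝ, ‖cut N X τ‖ ≤ ∫ v, g v * ‖ev X (τ + v)‖ := by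
    intro τ
    rw [hrep]
    refine (norm_integral_le_integral_norm _).trans ?_
    apply integral_mono_of_nonneg (Filter.Eventually.of_forall fun v => norm_nonneg _) (hIint τ)
    refine Filter.Eventually.of_forall fun v => ?_
    simp only [norm_mul]
    exact mul_le_mul_of_nonneg_right (hwb v) (norm_nonneg _)
  calc ∑ t ∈ S, ‖cut N X t‖ ≤ ∑ t ∈ S, ∫ v, g v * ‖ev X (t + v)‖ := sum_le_sum fun t _ => hcI t
    _ = ∫ v, ∑ t ∈ S, g v * ‖ev X (t + v)‖ := by
        rw [integral_finsetSum _ (fun t _ => hIint _)]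
    _ ≤ ∫ v, g v * W := by
        apply integral_mono (integrable_finsetSum _ fun t _ => hIint _) (hgi.mul_const _)
        intro v
        simp only
        rw [← mul_sum]
        exact mul_le_mul_of_nonneg_left (hW v) (hg0 v)
    _ = G * W := by rw [integral_mul_const]
    _ ≤ (12 * c0 + 1) * (N : ℝ) ^ η * W := by
        apply mul_le_mul_of_nonneg_right _ hW0
        rw [hGeq]
        have : 0 ≤ (N : ℝ) ^ η := by positivity
        nlinarith

/-- dyadic levels -/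
lemma levels (S : Finset ℝ) (P : ℝ → ℝ) (V : ℝ) (hV : 0 < V) (I : ℕ)
    (hP : ∀ t ∈ S, P t < 2 ^ I * V) :
    ∑ t ∈ S, P t ≤ S.card * V +
      ∑ i ∈ range I, 2 * (2 ^ i * V * ((S.filter (fun t => 2 ^ i * V ≤ P t)).card : ℝ)) := by
  classical
  have h1 : ∀ t ∈ S, P t ≤ V + ∑ i ∈ range I, if 2 ^ i * V ≤ P t then 2 * (2 ^ i * V) else 0 := by
    intro t ht
    have hnn : ∀ i ∈ range I, (0 : ℝ) ≤ if 2 ^ i * V ≤ P t then 2 * (2 ^ i * V) else 0 := by
      intro i _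
      split_ifs <;> positivity
    rcases lt_or_ge (P t) V with h | h
    · have := sum_nonneg hnn
      linarith
    · obtain ⟨i, hi, hi2⟩ := exists_nat_pow_near (x := P t / V) (y := 2)
        (by rw [le_div_iff₀ hV]; linarith) (by norm_num)
      rw [le_div_iff₀ hV] at hi
      rw [div_lt_iff₀ hV] at hi2
      have hiI : i ∈ range I := by
        rw [mem_range]
        have h3 : (2 : ℝ) ^ i * V < 2 ^ I * V := lt_of_le_of_lt hi (hP t ht)
        have h4 : (2 : ℝ) ^ i < 2 ^ I := lt_of_mul_lt_mul_right h3 hV.le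
        exact (pow_lt_pow_iff_right₀ (by norm_num)).1 h4
      have h5 := single_le_sum hnn hiI
      rw [if_pos hi] at h5
      rw [pow_succ] at hi2
      linarith
  calc ∑ t ∈ S, P t ≤ ∑ t ∈ S, (V + ∑ i ∈ range I, if 2 ^ i * V ≤ P t then 2 * (2 ^ i * V) else 0) :=
        sum_le_sum h1
    _ = S.card * V + ∑ i ∈ range I, ∑ t ∈ S, (if 2 ^ i * V ≤ P t then 2 * (2 ^ i * V) else 0) := by
        rw [sum_add_distrib, sum_const, nsmul_eq_mul, sum_comm]
    _ = _ := by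
        congr 1
        refine sum_congr rfl fun i _ => ?_
        rw [← sum_filter, sum_const, nsmul_eq_mul]
        ring

/-- the number of levels -/
lemma levels_card (η : ℝ) (hη : 0 < η) (y : ℝ) (hy : 1 ≤ y) :
    ∃ I : ℕ, y < 2 ^ I ∧ (I : ℝ) ≤ (1 + 2 / η) * y ^ η := by
  obtain ⟨i, hi, hi2⟩ := exists_nat_pow_near (x := y) (y := 2) hy (by norm_num)
  refine ⟨i + 1, hi2, ?_⟩
  have hlogs : 0.6931471803 < Real.log 2 := Real.log_two_gt_d9
  have h1 := Real.log_le_log (by positivity) hi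
  rw [Real.log_pow] at h1
  have h2 : Real.log y ≤ y ^ η / η := Real.log_le_rpow_div (by linarith) hη
  have h3 : 1 ≤ y ^ η := Real.one_le_rpow hy hη.le
  have hi0 : (0 : ℝ) ≤ i := Nat.cast_nonneg _
  push_cast
  have h4 : (i : ℝ) ≤ 2 * Real.log y := by nlinarith
  calc (i : ℝ) + 1 ≤ 2 * (y ^ η / η) + y ^ η := by linarith
    _ = _ := by ring

lemma ev_fac_le (M : ℕ) (c : ℕ → ℂ) (hc : ∑ n ∈ Icc 1 M, ‖c n‖ ^ 2 ≤ M) (t : ℝ) :
    ‖ev (fac M c) t‖ ≤ M := by
  rw [fac_ev]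
  have h1 : ‖∑ n ∈ Icc 1 M, c n * pw t n‖ ≤ ∑ n ∈ Icc 1 M, ‖c n‖ * 1 := by
    refine (norm_sum_le _ _).trans (le_of_eq ?_)
    exact sum_congr rfl fun n _ => by rw [norm_mul, pw_norm]
  have h2 : (∑ n ∈ Icc 1 M, ‖c n‖ * 1) ^ 2 ≤ (M : ℝ) ^ 2 := by
    calc (∑ n ∈ Icc 1 M, ‖c n‖ * 1) ^ 2 ≤ (∑ n ∈ Icc 1 M, ‖c n‖ ^ 2) * ∑ _n ∈ Icc 1 M, (1 : ℝ) ^ 2 :=
          sum_mul_sq_le_sq_mul_sq _ _ _
      _ ≤ M * M := by
          apply mul_le_mul hc _ (by positivity) (Nat.cast_nonneg _)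
          rw [sum_const, Nat.card_Icc, nsmul_eq_mul]
          simp
      _ = (M : ℝ) ^ 2 := by ring
  exact h1.trans (le_of_sq_le_sq h2 (Nat.cast_nonneg _))

lemma Pr_le {J : ℕ} (M : Fin J → ℕ) (c : Fin J → ℕ → ℂ)
    (hc : ∀ j, ∑ n ∈ Icc 1 (M j), ‖c j n‖ ^ 2 ≤ M j) (t : ℝ) : Pr M c t ≤ ∏ j, (M j : ℝ) :=
  prod_le_prod (fun _ _ => norm_nonneg _) fun j _ => ev_fac_le _ _ (hc j) t

/-- translation -/
lemma Pr_shift {J : ℕ} (M : Fin J → ℕ) (c : Fin J → ℕ → ℂ) (ξ t : ℝ) :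
    Pr M (fun j n => c j n * pw ξ n) t = Pr M c (t + ξ) := by
  unfold Pr
  refine prod_congr rfl fun j _ => ?_
  rw [fac_ev, fac_ev]
  congr 1
  refine sum_congr rfl fun n _ => ?_
  rw [pw_add]
  ring

end Run7.h415.LV
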