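import Pool.Agent.Run7.h415.LV.CutSum

set_option autoImplicit false

/-!
# Large values of a product cut to `[N, 2N]`
-/

namespace Run7.h415.LV

open Finset Pool.Agent.TH705.DL
open Pool.Agent.TH445.MQ
open Run7.h415.MQP
open Pool.Agent.W200.MR (pw)

/-- the bound -/
noncomputable def Bnd (p : ℝ → ℝ) (L T s : ℝ) : ℝ :=
  L ^ (p s * (2 - 2 * s) / (p s + (2 - 2 * s))) * T ^ ((2 - 2 * s) / (p s + (2 - 2 * s)))

theorem boxcut (J : ℕ) (hJ : 1 ≤ J) (p : ℝ → ℝ) (hLV : LV p) (A ε c0 B : ℝ) (hA : 1 ≤ A) (hε : 0 < ε)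
    (hc0 : 0 < c0) (hB : 1 ≤ B) :
    ∃ (C : ℝ) (E : ℕ), 1 ≤ C ∧ ∀ (σ : ℝ) (N : ℕ) (T β L : ℝ) (M : Fin J → ℕ) (c : Fin J → ℕ → ℂ)
      (W : Finset ℝ), 1 / 2 ≤ σ → σ ≤ 1 →
      (∀ s, σ ≤ s → s ≤ 1 → 0 ≤ p s ∧ c0 ≤ p s + (2 - 2 * s)) →
      (∀ s, σ ≤ s → s ≤ 1 → (N : ℝ) ^ (s - σ) * Bnd p L T s ≤ Bnd p L T σ) →
      1 ≤ N → 1 ≤ T →
      T ≤ (N : ℝ) ^ A → 1 ≤ β → (∀ j, 1 ≤ M j) → (∀ j, (M j : ℝ) ≤ L) →
      ∏ j, (2 * (M j : ℝ)) ≤ B * N →
      (∀ j, ∑ n ∈ Icc 1 (M j), ‖c j n‖ ^ 2 ≤ M j) → (∀ t ∈ W, 0 ≤ t ∧ t ≤ T) → Sep W →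
      (∀ t ∈ W, (N : ℝ) ^ σ ≤ β * ‖cut N (cv M c) t‖) →
      (W.card : ℝ) ≤ C * β ^ E * (N : ℝ) ^ ε * Bnd p L T σ := by
  classical
  obtain ⟨C1, E1, hC1, hcore⟩ := core J hJ p hLV A (ε / 2) c0 B hA (by positivity) hc0 hB
  obtain ⟨η, hη⟩ : ∃ η : ℝ, η = min 1 (ε / (2 * (E1 + 3))) := ⟨_, rfl⟩
  have hη0 : 0 < η := by rw [hη]; exact lt_min one_pos (by positivity)
  have hη1 : η ≤ 1 := by rw [hη]; exact min_le_left _ _
  have hηE : η * (E1 + 3) ≤ ε / 2 := by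
    calc η * (E1 + 3) ≤ ε / (2 * (E1 + 3)) * (E1 + 3) := by
          apply mul_le_mul_of_nonneg_right _ (by positivity)
          rw [hη]; exact min_le_right _ _
      _ = ε / 2 := by field_simp
  obtain ⟨C2, hC2, hcut⟩ := cut_sum η hη0 hη1
  refine ⟨4 * B ^ 2 * C1 * (1 + 2 / η) * (2 * C2) ^ (E1 + 2), E1 + 2, ?_, ?_⟩
  · have h1 : 1 ≤ B ^ 2 := one_le_pow₀ hB
    have h2 : 1 ≤ (2 * C2) ^ (E1 + 2) := one_le_pow₀ (by linarith)
    have h3 : 1 ≤ 1 + 2 / η := by have : 0 ≤ 2 / η := by positivity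
                                  linarith
    calc (1 : ℝ) ≤ 4 * 1 * 1 * 1 * 1 := by norm_num
      _ ≤ _ := by gcongr
  intro σ N T β L M c W hσ hσ1 hp hmono hN hT hTN hβ hM hML hMB hc hW hsep hWU
  have hN1 : (1 : ℝ) ≤ N := by exact_mod_cast hN
  have hN0 : (0 : ℝ) < N := by linarith
  have hMr : ∀ j, (1 : ℝ) ≤ M j := fun j => by exact_mod_cast hM j
  have hL0 : 0 < L := by
    have := (hMr ⟨0, hJ⟩).trans (hML ⟨0, hJ⟩)
    linarith
  have hT0 : 0 < T := by linarith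
  have hG0 : ∀ s, 0 ≤ Bnd p L T s := fun s => by unfold Bnd; positivity
  have hβ0 : 0 < β := by linarith
  have hC20 : 0 < C2 := by linarith
  rcases W.eq_empty_or_nonempty with h0 | ⟨t0, ht0⟩
  · rw [h0, card_empty, Nat.cast_zero]
    have := hG0 σ
    positivity
  -- the length is at least `N`
  have hSN : Real.log N ≤ 4 * ∑ j, Real.log (2 * M j) := by
    have h1 : cut N (cv M c) t0 ≠ 0 := by
      intro h
      have := hWU t0 ht0
      rw [h, norm_zero, mul_zero] at this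
      have : 0 < (N : ℝ) ^ σ := by positivity
      linarith
    unfold cut at h1
    obtain ⟨n, hn, hne⟩ := exists_ne_zero_of_sum_ne_zero h1
    have h2 : n ≤ ∏ j, M j := by
      by_contra h
      push Not at h
      rw [cv_zero M c n h, zero_mul] at hne
      exact hne rfl
    have h3 : (N : ℝ) ≤ ∏ j, (2 * (M j : ℝ)) := by
      have h4 : N ≤ ∏ j, M j := (mem_Icc.1 hn).1.trans h2
      have h5 : (N : ℝ) ≤ ((∏ j, M j : ℕ) : ℝ) := by exact_mod_cast h4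
      push_cast at h5
      refine h5.trans (prod_le_prod (fun j _ => by have := hMr j; linarith) fun j _ => ?_)
      have := hMr j; linarith
    have h6 := Real.log_le_log hN0 h3
    rw [Real.log_prod (fun j _ => by have := hMr j; positivity)] at h6
    have h7 : 0 ≤ ∑ j, Real.log (2 * M j) := sum_nonneg fun j _ =>
      Real.log_nonneg (by have := hMr j; linarith)
    linarith
  obtain ⟨β1, hβ1⟩ : ∃ β1 : ℝ, β1 = 2 * β * C2 * (N : ℝ) ^ η := ⟨_, rfl⟩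
  have hNη : 1 ≤ (N : ℝ) ^ η := Real.one_le_rpow hN1 hη0.le
  have hβ11 : 1 ≤ β1 := by
    rw [hβ1]
    calc (1 : ℝ) ≤ 2 * 1 * 1 * 1 := by norm_num
      _ ≤ _ := by gcongr
  have hβ10 : 0 < β1 := by linarith
  have hNσ1 : 1 ≤ (N : ℝ) ^ σ := Real.one_le_rpow hN1 (by linarith)
  have hNσ0 : 0 < (N : ℝ) ^ σ := by linarith
  obtain ⟨V, hV⟩ : ∃ V : ℝ, V = (N : ℝ) ^ σ / β1 := ⟨_, rfl⟩
  have hV0 : 0 < V := by rw [hV]; positivity
  have hVβ : β1 * V = (N : ℝ) ^ σ := by rw [hV]; field_simp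
  obtain ⟨Z, hZ⟩ : ∃ Z : ℝ, Z = B * (C1 * β1 ^ E1 * (N : ℝ) ^ (ε / 2) * (N : ℝ) ^ σ * Bnd p L T σ) :=
    ⟨_, rfl⟩
  have hZ0 : 0 ≤ Z := by rw [hZ]; have := hG0 σ; positivity
  obtain ⟨I, hI, hI2⟩ := levels_card η hη0 (B * N * β1) (by
    calc (1 : ℝ) ≤ 1 * 1 * 1 := by norm_num
      _ ≤ _ := by gcongr)
  -- every translate
  have hY : ∀ ξ : ℝ, ∑ t ∈ W, ‖ev (cv M c) (t + ξ)‖ ≤ W.card * V + I * (2 * Z) := by
    intro ξ
    set c' : Fin J → ℕ → ℂ := fun j n => c j n * pw ξ n with hc'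
    have hc'n : ∀ j, ∑ n ∈ Icc 1 (M j), ‖c' j n‖ ^ 2 ≤ M j := by
      intro j
      refine le_trans (le_of_eq ?_) (hc j)
      refine sum_congr rfl fun n _ => ?_
      simp only [hc']
      rw [norm_mul, pw_norm, mul_one]
    have e1 : ∀ t ∈ W, ‖ev (cv M c) (t + ξ)‖ = Pr M c' t := by
      intro t _
      rw [cv_ev, norm_prod, hc', Pr_shift]
      rfl
    rw [sum_congr rfl e1]
    have hPB : ∀ t, Pr M c' t ≤ B * N := by
      intro t
      refine (Pr_le M c' hc'n t).trans (le_trans ?_ hMB)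
      exact prod_le_prod (fun j _ => by have := hMr j; linarith) fun j _ => by
        have := hMr j; linarith
    have h1 := levels W (Pr M c') V hV0 I (by
      intro t _
      refine lt_of_le_of_lt (hPB t) ?_
      have h2 : B * N ≤ B * N * β1 * V := by
        rw [mul_assoc (B * (N : ℝ)), hVβ]
        exact le_mul_of_one_le_right (by positivity) hNσ1
      exact lt_of_le_of_lt h2 (mul_lt_mul_of_pos_right hI hV0))
    refine h1.trans (add_le_add le_rfl ?_)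
    calc ∑ i ∈ range I, 2 * (2 ^ i * V * ((W.filter (fun t => 2 ^ i * V ≤ Pr M c' t)).card : ℝ))
        ≤ ∑ _i ∈ range I, 2 * Z := ?_
      _ = I * (2 * Z) := by rw [sum_const, card_range, nsmul_eq_mul]
    apply sum_le_sum
    intro i _
    apply mul_le_mul_of_nonneg_left _ (by norm_num : (0 : ℝ) ≤ 2)
    obtain ⟨v, hv⟩ : ∃ v : ℝ, v = 2 ^ i * V := ⟨_, rfl⟩
    rw [← hv]
    have hVv : V ≤ v := by
      rw [hv]
      exact le_mul_of_one_le_left hV0.le (one_le_pow₀ (by norm_num))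
    have hv0 : 0 < v := by linarith
    obtain ⟨W', hW'⟩ : ∃ W' : Finset ℝ, W' = W.filter (fun t => v ≤ Pr M c' t) := ⟨_, rfl⟩
    rw [← hW']
    have hW'1 : ∀ t ∈ W', 0 ≤ t ∧ t ≤ T := fun t ht => by
      rw [hW'] at ht; exact hW t (mem_filter.1 ht).1
    have hW'2 : Sep W' := fun t ht u hu => by
      rw [hW'] at ht hu; exact hsep t (mem_filter.1 ht).1 u (mem_filter.1 hu).1
    have hW'3 : ∀ t ∈ W', v ≤ Pr M c' t := fun t ht => by
      rw [hW'] at ht; exact (mem_filter.1 ht).2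
    have hβE : 1 ≤ β1 ^ E1 := one_le_pow₀ hβ11
    have hBC : ∀ X : ℝ, 0 ≤ X → X ≤ B * X := fun X hX => le_mul_of_one_le_left hX hB
    have hp1 := hp 1 hσ1 le_rfl
    rcases lt_or_ge v ((N : ℝ) ^ σ) with h | h
    · have hp' := hp σ le_rfl hσ1
      have h2 := hcore σ N T β1 L M c' W' hσ hσ1 hp'.1 hp'.2 hN hT hTN hβ11 hM hML hMB hSN hc'n hW'1
        hW'2 (fun t ht => by
          rw [← hVβ]
          exact mul_le_mul_of_nonneg_left (hVv.trans (hW'3 t ht)) hβ10.le)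
      change (W'.card : ℝ) ≤ C1 * β1 ^ E1 * (N : ℝ) ^ (ε / 2) * Bnd p L T σ at h2
      calc v * (W'.card : ℝ) ≤ (N : ℝ) ^ σ * (C1 * β1 ^ E1 * (N : ℝ) ^ (ε / 2) * Bnd p L T σ) :=
            mul_le_mul h.le h2 (Nat.cast_nonneg _) hNσ0.le
        _ = C1 * β1 ^ E1 * (N : ℝ) ^ (ε / 2) * (N : ℝ) ^ σ * Bnd p L T σ := by ring
        _ ≤ Z := by
            rw [hZ]
            exact hBC _ (by have := hG0 σ; positivity)
    rcases lt_or_ge v (N : ℝ) with h' | h'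
    · -- between
      have hlN : 0 < Real.log N := by
        apply Real.log_pos
        linarith
      obtain ⟨s, hs⟩ : ∃ s : ℝ, s = Real.log v / Real.log N := ⟨_, rfl⟩
      have hsv : (N : ℝ) ^ s = v := by
        rw [Real.rpow_def_of_pos hN0, hs, mul_div_cancel₀ _ hlN.ne', Real.exp_log hv0]
      have hs1 : s ≤ 1 := by
        rw [hs, div_le_one hlN]
        exact Real.log_le_log hv0 h'.le
      have hsσ : σ ≤ s := by
        rw [hs, le_div_iff₀ hlN, ← Real.log_rpow hN0]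
        exact Real.log_le_log hNσ0 h
      have hp' := hp s hsσ hs1
      have h2 := hcore s N T 1 L M c' W' (by linarith) hs1 hp'.1 hp'.2 hN hT hTN le_rfl hM hML hMB hSN
        hc'n hW'1 hW'2 (fun t ht => by rw [hsv, one_mul]; exact hW'3 t ht)
      change (W'.card : ℝ) ≤ C1 * 1 ^ E1 * (N : ℝ) ^ (ε / 2) * Bnd p L T s at h2
      rw [one_pow, mul_one] at h2
      have h3 : (N : ℝ) ^ s = (N : ℝ) ^ (s - σ) * (N : ℝ) ^ σ := by
        rw [← Real.rpow_add hN0]; congr 1; ring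
      calc v * (W'.card : ℝ) ≤ (N : ℝ) ^ s * (C1 * (N : ℝ) ^ (ε / 2) * Bnd p L T s) := by
            rw [← hsv]
            exact mul_le_mul_of_nonneg_left h2 (by positivity)
        _ = C1 * 1 * (N : ℝ) ^ (ε / 2) * (N : ℝ) ^ σ * ((N : ℝ) ^ (s - σ) * Bnd p L T s) := by
            rw [h3]; ring
        _ ≤ C1 * β1 ^ E1 * (N : ℝ) ^ (ε / 2) * (N : ℝ) ^ σ * Bnd p L T σ := by
            have h4 := hmono s hsσ hs1
            have h5 := hG0 s
            have h6 : 0 ≤ (N : ℝ) ^ (s - σ) * Bnd p L T s := by positivity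
            gcongr
        _ ≤ Z := by
            rw [hZ]
            exact hBC _ (by have := hG0 σ; positivity)
    · -- above `N`
      rcases W'.eq_empty_or_nonempty with he | ⟨t1, ht1⟩
      · rw [he, card_empty, Nat.cast_zero, mul_zero]
        exact hZ0
      have hvB : v ≤ B * N := (hW'3 t1 ht1).trans (hPB t1)
      have h2 := hcore 1 N T 1 L M c' W' (by norm_num) le_rfl hp1.1 hp1.2 hN hT hTN le_rfl hM hML hMB
        hSN hc'n hW'1 hW'2 (fun t ht => by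
          rw [Real.rpow_one, one_mul]; exact h'.trans (hW'3 t ht))
      change (W'.card : ℝ) ≤ C1 * 1 ^ E1 * (N : ℝ) ^ (ε / 2) * Bnd p L T 1 at h2
      rw [one_pow, mul_one] at h2
      have h3 : (N : ℝ) = (N : ℝ) ^ (1 - σ) * (N : ℝ) ^ σ := by
        rw [← Real.rpow_add hN0]
        simp
      calc v * (W'.card : ℝ) ≤ (B * N) * (C1 * (N : ℝ) ^ (ε / 2) * Bnd p L T 1) :=
            mul_le_mul hvB h2 (Nat.cast_nonneg _) (by positivity)
        _ = B * (C1 * 1 * (N : ℝ) ^ (ε / 2) * (N : ℝ) ^ σ * ((N : ℝ) ^ (1 - σ) * Bnd p L T 1)) := by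
            nth_rewrite 1 [h3]; ring
        _ ≤ Z := by
            rw [hZ]
            have h4 := hmono 1 hσ1 le_rfl
            have h5 := hG0 1
            have h6 : 0 ≤ (N : ℝ) ^ (1 - σ) * Bnd p L T 1 := by positivity
            gcongr
  have h1 := hcut N hN (cv M c) (cv_FS M c) W _ hY
  have h2 : (W.card : ℝ) * (N : ℝ) ^ σ ≤ β * ∑ t ∈ W, ‖cut N (cv M c) t‖ := by
    rw [mul_sum]
    calc (W.card : ℝ) * (N : ℝ) ^ σ = ∑ _t ∈ W, (N : ℝ) ^ σ := by rw [sum_const, nsmul_eq_mul]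
      _ ≤ _ := sum_le_sum hWU
  have h3 : (W.card : ℝ) * (N : ℝ) ^ σ ≤ β * (C2 * (N : ℝ) ^ η * (W.card * V + I * (2 * Z))) :=
    h2.trans (mul_le_mul_of_nonneg_left h1 hβ0.le)
  have h4 : β * (C2 * (N : ℝ) ^ η * (W.card * V + I * (2 * Z))) =
      W.card * (N : ℝ) ^ σ / 2 + β1 * I * Z := by
    have e1 : β * C2 * (N : ℝ) ^ η = β1 / 2 := by rw [hβ1]; ring
    calc β * (C2 * (N : ℝ) ^ η * (W.card * V + I * (2 * Z)))
        = (β * C2 * (N : ℝ) ^ η) * (W.card * V + I * (2 * Z)) := by ring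
      _ = W.card * (β1 * V) / 2 + β1 * I * Z := by rw [e1]; ring
      _ = _ := by rw [hVβ]
  rw [h4] at h3
  have h5 : (W.card : ℝ) * (N : ℝ) ^ σ ≤ 2 * β1 * I * Z := by linarith
  have h6 : (I : ℝ) ≤ (1 + 2 / η) * (B * (N : ℝ) ^ η * β1) := by
    refine hI2.trans (mul_le_mul_of_nonneg_left ?_ (by positivity))
    rw [Real.mul_rpow (by positivity) hβ10.le, Real.mul_rpow (by positivity) hN0.le]
    have h7 : B ^ η ≤ B := by
      calc B ^ η ≤ B ^ (1 : ℝ) := Real.rpow_le_rpow_of_exponent_le hB hη1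
        _ = B := Real.rpow_one B
    have h8 : β1 ^ η ≤ β1 := by
      calc β1 ^ η ≤ β1 ^ (1 : ℝ) := Real.rpow_le_rpow_of_exponent_le hβ11 hη1
        _ = β1 := Real.rpow_one β1
    gcongr
  have h9 : (W.card : ℝ) * (N : ℝ) ^ σ ≤
      (2 * β1 * ((1 + 2 / η) * (B * (N : ℝ) ^ η * β1)) *
        (B * (C1 * β1 ^ E1 * (N : ℝ) ^ (ε / 2) * Bnd p L T σ))) * (N : ℝ) ^ σ := by
    refine h5.trans ?_
    calc 2 * β1 * I * Z ≤ 2 * β1 * ((1 + 2 / η) * (B * (N : ℝ) ^ η * β1)) * Z := by gcongr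
      _ = _ := by rw [hZ]; ring
  have h10 := le_of_mul_le_mul_right h9 hNσ0
  refine h10.trans ?_
  have h11 : (N : ℝ) ^ η * (β1 ^ (E1 + 2) * (N : ℝ) ^ (ε / 2)) ≤
      (2 * C2) ^ (E1 + 2) * β ^ (E1 + 2) * (N : ℝ) ^ ε := by
    have e1 : β1 ^ (E1 + 2) = (2 * C2) ^ (E1 + 2) * β ^ (E1 + 2) * (N : ℝ) ^ (η * (E1 + 2)) := by
      have e3 : ((N : ℝ) ^ η) ^ (E1 + 2) = (N : ℝ) ^ (η * (E1 + 2)) := by
        rw [← Real.rpow_natCast, ← Real.rpow_mul hN0.le]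
        push_cast
        rfl
      rw [hβ1, show 2 * β * C2 * (N : ℝ) ^ η = 2 * C2 * β * (N : ℝ) ^ η by ring, mul_pow, mul_pow, e3]
    have e2 : (N : ℝ) ^ η * ((N : ℝ) ^ (η * (E1 + 2)) * (N : ℝ) ^ (ε / 2)) ≤ (N : ℝ) ^ ε := by
      rw [← Real.rpow_add hN0, ← Real.rpow_add hN0]
      apply Real.rpow_le_rpow_of_exponent_le hN1
      linarith
    rw [e1]
    calc (N : ℝ) ^ η * ((2 * C2) ^ (E1 + 2) * β ^ (E1 + 2) * (N : ℝ) ^ (η * (E1 + 2)) *
          (N : ℝ) ^ (ε / 2)) = (2 * C2) ^ (E1 + 2) * β ^ (E1 + 2) *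
          ((N : ℝ) ^ η * ((N : ℝ) ^ (η * (E1 + 2)) * (N : ℝ) ^ (ε / 2))) := by ring
      _ ≤ _ := mul_le_mul_of_nonneg_left e2 (by positivity)
  calc 2 * β1 * ((1 + 2 / η) * (B * (N : ℝ) ^ η * β1)) *
        (B * (C1 * β1 ^ E1 * (N : ℝ) ^ (ε / 2) * Bnd p L T σ))
      = 2 * B ^ 2 * C1 * (1 + 2 / η) * Bnd p L T σ *
        ((N : ℝ) ^ η * (β1 ^ (E1 + 2) * (N : ℝ) ^ (ε / 2))) := by ring
    _ ≤ 4 * B ^ 2 * C1 * (1 + 2 / η) * Bnd p L T σ *
        ((2 * C2) ^ (E1 + 2) * β ^ (E1 + 2) * (N : ℝ) ^ ε) := by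
        have := hG0 σ
        gcongr
        norm_num
    _ = _ := by ring

end Run7.h415.LV
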