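import Pool.Agent.Run7.h415.LV.Greedy

set_option autoImplicit false

/-!
# Large values of products
-/

namespace Run7.h415.LV

open Finset Pool.Agent.TH705.DL
open Pool.Agent.TH445.MQ
open Run7.h415.MQP

/-- the product -/
noncomputable def Pr {J : ℕ} (M : Fin J → ℕ) (c : Fin J → ℕ → ℂ) (t : ℝ) : ℝ :=
  ∏ j, ‖ev (fac (M j) (c j)) t‖

lemma sum_m {J : ℕ} (x : Fin J → ℝ) (A : Finset (Fin J)) (k : ℕ) :
    ∑ j, ((k + (if j ∈ A then 1 else 0) : ℕ) : ℝ) * x j = k * ∑ j, x j + ∑ j ∈ A, x j := by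
  have h : ∀ j, ((k + (if j ∈ A then 1 else 0) : ℕ) : ℝ) * x j =
      k * x j + (if j ∈ A then x j else 0) := by
    intro j
    split_ifs
    · push_cast; ring
    · push_cast; ring
  rw [sum_congr rfl fun j _ => h j, sum_add_distrib, ← mul_sum, sum_ite_mem, univ_inter]

/-- the polynomial `D^k D_A` -/
lemma power {J : ℕ} (M : Fin J → ℕ) (c : Fin J → ℕ → ℂ) (A : Finset (Fin J)) (k K1 : ℕ)
    (hk : k + 1 ≤ K1) (hM : ∀ j, 1 ≤ M j) (hc : ∀ j, ∑ n ∈ Icc 1 (M j), ‖c j n‖ ^ 2 ≤ M j)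
    (Δ P : ℝ) (hP : (∏ j, (2 * (M j : ℝ))) ^ K1 ≤ P) (hΔ1 : 1 ≤ Δ)
    (hΔ : ∀ n : ℕ, 1 ≤ n → (n : ℝ) ≤ P → (n.divisors.card : ℝ) ≤ Δ) :
    ∃ (F : ℕ → ℂ) (x : ℕ), 1 ≤ x ∧
      Real.log x = k * ∑ j, Real.log (2 * M j) + ∑ j ∈ A, Real.log (2 * M j) ∧
      ∑ n ∈ Icc 1 x, ‖F n‖ ^ 2 ≤ Δ ^ (J * (K1 + 1)) * x ∧
      ∀ t : ℝ, (∀ j, 0 < ‖ev (fac (M j) (c j)) t‖) →
        Real.log ‖∑ n ∈ Icc 1 x, F n * ph t n‖ =
          k * ∑ j, Real.log ‖ev (fac (M j) (c j)) t‖ + ∑ j ∈ A, Real.log ‖ev (fac (M j) (c j)) t‖ ∧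
          0 < ‖∑ n ∈ Icc 1 x, F n * ph t n‖ := by
  classical
  set m : Fin J → ℕ := fun j => k + (if j ∈ A then 1 else 0) with hm
  have hmk : ∀ j, m j ≤ k + 1 := fun j => by simp only [hm]; split_ifs <;> omega
  have hmK : ∀ j, m j ≤ K1 := fun j => (hmk j).trans hk
  set X : Fin J → AF := fun j => fac (M j) (c j) with hX
  set x : Fin J → ℝ := fun j => 2 * (M j : ℝ) with hx
  have hMr : ∀ j, (1 : ℝ) ≤ M j := fun j => by exact_mod_cast hM j
  have hx1 : ∀ j, 1 ≤ x j := fun j => by have := hMr j; simp only [hx]; linarith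
  have hx0 : ∀ j, 0 < x j := fun j => by linarith [hx1 j]
  have hΔ0 : 0 ≤ Δ := by linarith
  have hp1 : ∏ j, x j ^ m j ≤ (∏ j, x j) ^ K1 := by
    rw [← prod_pow]
    exact prod_le_prod (fun j _ => by have := hx0 j; positivity)
      fun j _ => pow_le_pow_right₀ (hx1 j) (hmK j)
  have hp2 : ∀ j, x j ^ m j ≤ P := by
    intro j
    refine le_trans (le_trans ?_ hp1) hP
    calc x j ^ m j ≤ x j ^ m j * ∏ i ∈ univ.erase j, x i ^ m i := by
          apply le_mul_of_one_le_right (by have := hx0 j; positivity)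
          rw [← prod_const_one (s := (univ.erase j : Finset (Fin J)))]
          exact prod_le_prod (fun _ _ => zero_le_one) fun i _ => one_le_pow₀ (hx1 i)
      _ = ∏ i, x i ^ m i := by rw [mul_prod_erase univ (fun i => x i ^ m i) (mem_univ j)]
  have h1 : ∀ j, L2 (X j ^ m j) (Δ ^ m j * (∑ n ∈ Icc 1 (M j), ‖c j n‖ ^ 2) ^ m j) (x j ^ m j) :=
    fun j => (fac_L2 (M j) (c j)).pow (hx1 j) (m j) (hp2 j) hΔ hΔ0
  have h2 := L2.prod univ (fun j => X j ^ m j) _ _ (fun j _ => h1 j)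
    (fun j _ => one_le_pow₀ (hx1 j)) (hp1.trans hP) hΔ hΔ0
  refine ⟨fun n => (∏ j, X j ^ m j) n, ∏ j, (2 * M j) ^ m j, ?_, ?_, ?_, ?_⟩
  · apply Nat.one_le_iff_ne_zero.2
    apply prod_ne_zero_iff.2
    intro j _
    have := hM j
    positivity
  · push_cast
    rw [Real.log_prod (fun j _ => by have := hMr j; positivity)]
    rw [← sum_m]
    refine sum_congr rfl fun j _ => ?_
    rw [Real.log_pow]
  · refine (h2.2 _).trans ?_
    rw [card_univ, Fintype.card_fin, prod_mul_distrib]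
    push_cast
    have hG0 : ∀ j, 0 ≤ ∑ n ∈ Icc 1 (M j), ‖c j n‖ ^ 2 := fun j => sum_nonneg fun _ _ => by positivity
    have h3 : ∏ j, (∑ n ∈ Icc 1 (M j), ‖c j n‖ ^ 2) ^ m j ≤ ∏ j, (2 * (M j : ℝ)) ^ m j := by
      apply prod_le_prod (fun j _ => pow_nonneg (hG0 j) _)
      intro j _
      apply pow_le_pow_left₀ (hG0 j)
      have := hc j
      have := hMr j
      linarith
    have h4 : ∏ j, Δ ^ m j ≤ Δ ^ (J * K1) := by
      rw [prod_pow_eq_pow_sum]
      apply pow_le_pow_right₀ hΔ1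
      calc ∑ j, m j ≤ ∑ _j : Fin J, K1 := sum_le_sum fun j _ => hmK j
        _ = J * K1 := by rw [sum_const, card_univ, Fintype.card_fin, smul_eq_mul]
    calc Δ ^ J * ((∏ j, Δ ^ m j) * ∏ j, (∑ n ∈ Icc 1 (M j), ‖c j n‖ ^ 2) ^ m j)
        ≤ Δ ^ J * (Δ ^ (J * K1) * ∏ j, (2 * (M j : ℝ)) ^ m j) := by
          apply mul_le_mul_of_nonneg_left _ (by positivity)
          exact mul_le_mul h4 h3 (prod_nonneg fun j _ => pow_nonneg (hG0 j) _) (by positivity)
      _ = Δ ^ (J * (K1 + 1)) * ∏ j, (2 * (M j : ℝ)) ^ m j := by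
          rw [mul_add, pow_add, mul_one]
          ring
  · intro t ht
    have e : ∑ n ∈ Icc 1 (∏ j, (2 * M j) ^ m j), (∏ j, X j ^ m j) n * ph t n =
        ∏ j, ev (X j) t ^ m j := by
      have hfs : ∀ j ∈ (univ : Finset (Fin J)), FS (X j ^ m j) := fun j _ =>
        ((fac_L2 (M j) (c j)).fs).pow (m j)
      have e1 : ∏ j, ev (X j) t ^ m j = ev (∏ j, X j ^ m j) t := by
        rw [ev_prod _ _ hfs]
        exact prod_congr rfl fun j _ => (ev_pow (fac_L2 (M j) (c j)).fs _ _).symm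
      rw [e1, ev_eq (∏ j, X j ^ m j) (∏ j, (2 * M j) ^ m j)]
      · refine sum_congr rfl fun n _ => ?_
        rw [ph_eq]
        rfl
      · intro n hn
        by_contra hne
        have h5 := h2.1 n hne
        simp only [hx] at h5
        have h6 : (n : ℝ) ≤ ((∏ j, (2 * M j) ^ m j : ℕ) : ℝ) := by
          push_cast
          exact h5
        have h7 : n ≤ ∏ j, (2 * M j) ^ m j := by exact_mod_cast h6
        omega
    have e2 : ‖∑ n ∈ Icc 1 (∏ j, (2 * M j) ^ m j), (∏ j, X j ^ m j) n * ph t n‖ =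
        ∏ j, ‖ev (X j) t‖ ^ m j := by
      rw [e, norm_prod]
      exact prod_congr rfl fun j _ => norm_pow _ _
    have hpos : ∀ j, 0 < ‖ev (X j) t‖ := ht
    rw [e2]
    constructor
    · rw [Real.log_prod (fun j _ => by have := hpos j; positivity), ← sum_m]
      refine sum_congr rfl fun j _ => ?_
      rw [Real.log_pow]
    · exact prod_pos fun j _ => by have := hpos j; positivity

theorem core (J : ℕ) (hJ : 1 ≤ J) (p : ℝ → ℝ) (hLV : LV p) (A ε c0 B : ℝ) (hA : 1 ≤ A) (hε : 0 < ε)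
    (hc0 : 0 < c0) (hB : 1 ≤ B) :
    ∃ (C : ℝ) (E : ℕ), 1 ≤ C ∧ ∀ (σ : ℝ) (N : ℕ) (T β L : ℝ) (M : Fin J → ℕ) (c : Fin J → ℕ → ℂ)
      (W : Finset ℝ), 1 / 2 ≤ σ → σ ≤ 1 → 0 ≤ p σ → c0 ≤ p σ + (2 - 2 * σ) → 1 ≤ N → 1 ≤ T →
      T ≤ (N : ℝ) ^ A → 1 ≤ β → (∀ j, 1 ≤ M j) → (∀ j, (M j : ℝ) ≤ L) →
      ∏ j, (2 * (M j : ℝ)) ≤ B * N → Real.log N ≤ 4 * ∑ j, Real.log (2 * M j) →
      (∀ j, ∑ n ∈ Icc 1 (M j), ‖c j n‖ ^ 2 ≤ M j) → (∀ t ∈ W, 0 ≤ t ∧ t ≤ T) → Sep W →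
      (∀ t ∈ W, (N : ℝ) ^ σ ≤ β * Pr M c t) →
      (W.card : ℝ) ≤ C * β ^ E * (N : ℝ) ^ ε *
        (L ^ (p σ * (2 - 2 * σ) / (p σ + (2 - 2 * σ))) * T ^ ((2 - 2 * σ) / (p σ + (2 - 2 * σ)))) := by
  classical
  obtain ⟨K0, hK0⟩ : ∃ K0 : ℕ, K0 = ⌈4 * A / c0⌉₊ := ⟨_, rfl⟩
  obtain ⟨K1, hK1⟩ : ∃ K1 : ℕ, K1 = K0 + 1 := ⟨_, rfl⟩
  have hK1r : (1 : ℝ) ≤ K1 := by rw [hK1]; push_cast; linarith [Nat.cast_nonneg (α := ℝ) K0]
  obtain ⟨E1, hE1⟩ : ∃ E1 : ℕ, E1 = J * (K1 + 1) * 3 := ⟨_, rfl⟩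
  have hE1r : (1 : ℝ) ≤ E1 := by
    have : 1 ≤ E1 := by rw [hE1]; nlinarith [Nat.zero_le K1]
    exact_mod_cast this
  obtain ⟨δ, hδ⟩ : ∃ δ : ℝ, δ = ε / (2 * K1) := ⟨_, rfl⟩
  obtain ⟨η, hη⟩ : ∃ η : ℝ, η = ε / (2 * K1 * E1) := ⟨_, rfl⟩
  have hδ0 : 0 < δ := by rw [hδ]; positivity
  have hη0 : 0 < η := by rw [hη]; positivity
  obtain ⟨K, hK, hLV⟩ := hLV δ hδ0
  obtain ⟨Cd, hCd0, hCd⟩ := Pool.Agent.H510R2.divisor_bound η hη0
  obtain ⟨C, hC⟩ : ∃ C : ℝ, C = max Cd 1 := ⟨_, rfl⟩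
  have hC1 : 1 ≤ C := by rw [hC]; exact le_max_right _ _
  have hCdC : Cd ≤ C := by rw [hC]; exact le_max_left _ _
  refine ⟨max 1 (2 ^ J * (K * B ^ (ε / 2) * (C ^ E1 * B ^ (ε / 2)) * B ^ (6 * K1) * 4)), 6 * K1,
    le_max_left _ _, ?_⟩
  intro σ N T β L M c W hσ hσ1 hp hpq hN hT hTN hβ hM hML hMB hSN hc hW hsep hWU
  obtain ⟨q, hq⟩ : ∃ q : ℝ, q = 2 - 2 * σ := ⟨_, rfl⟩
  rw [← hq] at hpq ⊢
  have hq0 : 0 ≤ q := by rw [hq]; linarith
  have hq1 : q ≤ 1 := by rw [hq]; linarith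
  obtain ⟨P, hP⟩ : ∃ P : ℝ, P = p σ := ⟨_, rfl⟩
  rw [← hP] at hp hpq ⊢
  have hN1 : (1 : ℝ) ≤ N := by exact_mod_cast hN
  have hN0 : (0 : ℝ) < N := by linarith
  have hlN : 0 ≤ Real.log N := Real.log_nonneg hN1
  have hMr : ∀ j, (1 : ℝ) ≤ M j := fun j => by exact_mod_cast hM j
  have hJ' : (univ : Finset (Fin J)).Nonempty := ⟨⟨0, hJ⟩, mem_univ _⟩
  obtain ⟨j0, -⟩ := hJ'
  have hL1 : 1 ≤ L := (hMr j0).trans (hML j0)
  have hL0 : 0 < L := by linarith
  set x : Fin J → ℝ := fun j => Real.log (2 * M j) with hx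
  have hx0 : ∀ j, 0 < x j := fun j => Real.log_pos (by have := hMr j; linarith)
  obtain ⟨S, hS⟩ : ∃ S : ℝ, S = ∑ j, x j := ⟨_, rfl⟩
  have hS0 : 0 < S := by rw [hS]; exact sum_pos (fun j _ => hx0 j) ⟨j0, mem_univ _⟩
  have hxℓ : ∀ j, x j ≤ Real.log (2 * L) := fun j =>
    Real.log_le_log (by have := hMr j; linarith) (by have := hML j; linarith)
  have hT0 : 0 < T := by linarith
  have hlT : 0 ≤ Real.log T := Real.log_nonneg hT
  have hpq0 : 0 < P + q := by linarith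
  obtain ⟨k, hk⟩ : ∃ k : ℕ, k = ⌊Real.log T / ((P + q) * S)⌋₊ := ⟨_, rfl⟩
  have hSB : S ≤ Real.log (B * N) := by
    have : S = Real.log (∏ j, (2 * (M j : ℝ))) := by
      rw [Real.log_prod (fun j _ => by have := hMr j; positivity), hS]
    rw [this]
    exact Real.log_le_log (prod_pos fun j _ => by have := hMr j; positivity) hMB
  have hlB : 0 ≤ Real.log B := Real.log_nonneg hB
  have hlβ : 0 ≤ Real.log β := Real.log_nonneg hβ
  have hβ0 : 0 < β := by linarith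
  have hB0 : 0 < B := by linarith
  have hlBN : Real.log (B * N) = Real.log B + Real.log N := Real.log_mul hB0.ne' hN0.ne'
  have hkK : k ≤ K0 := by
    rw [hk, hK0]
    apply le_trans (Nat.floor_le_floor _) (Nat.floor_le_ceil _)
    rw [div_le_div_iff₀ (by positivity) hc0]
    have h1 : Real.log T ≤ A * Real.log N := by
      rw [← Real.log_rpow hN0]
      exact Real.log_le_log hT0 hTN
    have h2 : Real.log N ≤ 4 * S := by rw [hS]; exact hSN
    calc Real.log T * c0 ≤ (A * (4 * S)) * c0 := by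
          apply mul_le_mul_of_nonneg_right _ hc0.le
          exact h1.trans (mul_le_mul_of_nonneg_left h2 (by linarith))
      _ = 4 * A * S * c0 := by ring
      _ ≤ 4 * A * S * (P + q) := mul_le_mul_of_nonneg_left hpq (by positivity)
      _ = _ := by ring
  -- the choice
  have hch : ∀ t ∈ W, ∃ A' : Finset (Fin J),
      0 ≤ ∑ j ∈ A', (Real.log ‖ev (fac (M j) (c j)) t‖ - x j / S * Real.log (Pr M c t)) ∧
      q * (k * S + ∑ j ∈ A', x j) ≤ q / (P + q) * Real.log T + P * q / (P + q) * Real.log (2 * L) ∧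
      Real.log T - P * (k * S + ∑ j ∈ A', x j) ≤
        q / (P + q) * Real.log T + P * q / (P + q) * Real.log (2 * L) := by
    intro t ht
    have hpr : 0 < Pr M c t := by
      have h1 := hWU t ht
      have h2 : 0 < (N : ℝ) ^ σ := by positivity
      by_contra h
      push Not at h
      nlinarith
    have hne : ∀ j, ‖ev (fac (M j) (c j)) t‖ ≠ 0 := by
      unfold Pr at hpr
      exact fun j => (prod_ne_zero_iff.1 hpr.ne') j (mem_univ j)
    refine choose _ x hx0 S _ hS hS0 hxℓ ?_ P q _ hp hq0 hpq0 hlT k hk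
    rw [sum_sub_distrib, ← sum_mul, ← sum_div, ← hS, div_self hS0.ne', one_mul]
    unfold Pr
    rw [Real.log_prod (fun j _ => hne j), sub_self]
  choose! a ha using hch
  obtain ⟨R, hR⟩ : ∃ R : ℝ, R = L ^ (P * q / (P + q)) * T ^ (q / (P + q)) := ⟨_, rfl⟩
  rw [← hR]
  have hR0 : 0 < R := by rw [hR]; positivity
  have hexp : Real.exp (q / (P + q) * Real.log T + P * q / (P + q) * Real.log (2 * L)) ≤ 2 * R := by
    rw [Real.exp_add, hR, Real.log_mul (by norm_num) hL0.ne', mul_add, Real.exp_add]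
    have e1 : Real.exp (q / (P + q) * Real.log T) = T ^ (q / (P + q)) := by
      rw [Real.rpow_def_of_pos hT0, mul_comm]
    have e2 : Real.exp (P * q / (P + q) * Real.log L) = L ^ (P * q / (P + q)) := by
      rw [Real.rpow_def_of_pos hL0, mul_comm]
    have e3 : Real.exp (P * q / (P + q) * Real.log 2) ≤ 2 := by
      calc Real.exp (P * q / (P + q) * Real.log 2) ≤ Real.exp (Real.log 2) := by
            apply Real.exp_le_exp.2
            apply mul_le_of_le_one_left (Real.log_nonneg (by norm_num))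
            rw [div_le_one hpq0]
            nlinarith
        _ = 2 := Real.exp_log (by norm_num)
    rw [e1, e2]
    calc T ^ (q / (P + q)) * (Real.exp (P * q / (P + q) * Real.log 2) * L ^ (P * q / (P + q)))
        ≤ T ^ (q / (P + q)) * (2 * L ^ (P * q / (P + q))) := by gcongr
      _ = _ := by ring
  obtain ⟨Δ, hΔ⟩ : ∃ Δ : ℝ, Δ = C * (B * N) ^ (K1 * η) := ⟨_, rfl⟩
  have hBN1 : 1 ≤ B * N := by nlinarith
  have hBN0 : 0 < B * N := by linarith
  have hΔ1 : 1 ≤ Δ := by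
    rw [hΔ]
    have : 1 ≤ (B * N) ^ (K1 * η) := Real.one_le_rpow hBN1 (by positivity)
    nlinarith
  have hdiv : ∀ n : ℕ, 1 ≤ n → (n : ℝ) ≤ (B * N) ^ K1 → (n.divisors.card : ℝ) ≤ Δ := by
    intro n hn hn2
    refine (hCd n hn).trans ?_
    rw [hΔ]
    have h1 : (n : ℝ) ^ η ≤ (B * N) ^ (K1 * η) := by
      rw [Real.rpow_mul hBN0.le, Real.rpow_natCast]
      exact Real.rpow_le_rpow (Nat.cast_nonneg _) hn2 hη0.le
    exact mul_le_mul hCdC h1 (by positivity) (by positivity)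
  -- one subproduct
  have hone : ∀ A' : Finset (Fin J), ((W.filter (fun t => a t = A')).card : ℝ) ≤
      K * B ^ (ε / 2) * (C ^ E1 * B ^ (ε / 2)) * B ^ (6 * K1) * 4 * (β ^ (6 * K1) * (N : ℝ) ^ ε * R) := by
    intro A'
    rcases (W.filter (fun t => a t = A')).eq_empty_or_nonempty with h0 | h0
    · rw [h0, card_empty, Nat.cast_zero]
      positivity
    obtain ⟨t0, ht0⟩ := h0
    rw [mem_filter] at ht0
    obtain ⟨-, hy1, hy2⟩ := ha t0 ht0.1
    rw [ht0.2] at hy1 hy2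
    obtain ⟨F, xF, hxF, hlx, hF2, hFt⟩ := power M c A' k K1 (by omega) hM hc Δ ((B * N) ^ K1)
      (pow_le_pow_left₀ (prod_nonneg fun j _ => by have := hMr j; positivity) hMB K1) hΔ1 hdiv
    change Real.log xF = k * ∑ j, x j + ∑ j ∈ A', x j at hlx
    rw [← hS] at hlx
    rw [← hlx] at hy1 hy2
    have hxF1 : (1 : ℝ) ≤ xF := by exact_mod_cast hxF
    have hxF0 : (0 : ℝ) < xF := by linarith
    have hxA0 : 0 ≤ ∑ j ∈ A', x j := sum_nonneg fun j _ => (hx0 j).le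
    have hxAS : ∑ j ∈ A', x j ≤ S := by
      rw [hS]
      exact sum_le_sum_of_subset_of_nonneg (subset_univ _) fun j _ _ => (hx0 j).le
    obtain ⟨κ, hκ⟩ : ∃ κ : ℝ, κ = k + (∑ j ∈ A', x j) / S := ⟨_, rfl⟩
    have hκS : κ * S = Real.log xF := by rw [hκ, hlx]; field_simp
    have hκ0 : 0 ≤ κ := by rw [hκ]; positivity
    have hκK : κ ≤ K1 := by
      rw [hκ, hK1]
      have h1 : (∑ j ∈ A', x j) / S ≤ 1 := by rw [div_le_one hS0]; exact hxAS
      have h2 : (k : ℝ) ≤ K0 := by exact_mod_cast hkK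
      push_cast
      linarith
    obtain ⟨U, hU⟩ : ∃ U : ℝ, U = Real.exp (κ * (σ * Real.log N - Real.log β)) := ⟨_, rfl⟩
    have hU0 : 0 < U := by rw [hU]; exact Real.exp_pos _
    have h1 : (xF : ℝ) ^ σ ≤ (B * β) ^ K1 * U := by
      rw [hU, Real.rpow_def_of_pos hxF0, ← hκS]
      have e1 : ((B * β) ^ K1 : ℝ) = Real.exp (K1 * (Real.log B + Real.log β)) := by
        rw [← Real.log_mul hB0.ne' hβ0.ne', ← Real.log_pow, Real.exp_log (by positivity)]
      rw [e1, ← Real.exp_add]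
      apply Real.exp_le_exp.2
      have h2 : κ * σ * S ≤ κ * σ * (Real.log B + Real.log N) := by
        apply mul_le_mul_of_nonneg_left _ (by positivity)
        rw [← hlBN]; exact hSB
      have h3 : κ * σ * Real.log B ≤ K1 * Real.log B := by
        apply mul_le_mul_of_nonneg_right _ hlB
        nlinarith
      have h4 : κ * Real.log β ≤ K1 * Real.log β := mul_le_mul_of_nonneg_right hκK hlβ
      nlinarith
    have h2 : ∀ t ∈ W.filter (fun t => a t = A'), U ≤ ‖∑ n ∈ Icc 1 xF, F n * ph t n‖ := by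
      intro t ht
      rw [mem_filter] at ht
      have hpr : 0 < Pr M c t := by
        have h1 := hWU t ht.1
        have h2 : 0 < (N : ℝ) ^ σ := by positivity
        by_contra h
        push Not at h
        nlinarith
      have hpos : ∀ j, 0 < ‖ev (fac (M j) (c j)) t‖ := by
        intro j
        have : ‖ev (fac (M j) (c j)) t‖ ≠ 0 := by
          unfold Pr at hpr
          exact (prod_ne_zero_iff.1 hpr.ne') j (mem_univ j)
        exact lt_of_le_of_ne (norm_nonneg _) (Ne.symm this)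
      obtain ⟨hFl, hF0⟩ := hFt t hpos
      rw [← Real.exp_log hF0, hFl, hU]
      apply Real.exp_le_exp.2
      have hsum : ∑ j, Real.log ‖ev (fac (M j) (c j)) t‖ = Real.log (Pr M c t) := by
        unfold Pr
        rw [Real.log_prod (fun j _ => (hpos j).ne')]
      rw [hsum]
      have h3 := (ha t ht.1).1
      rw [ht.2, sum_sub_distrib, ← sum_mul, ← sum_div] at h3
      have h4 : σ * Real.log N - Real.log β ≤ Real.log (Pr M c t) := by
        have h5 := Real.log_le_log (by positivity) (hWU t ht.1)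
        rw [Real.log_rpow hN0, Real.log_mul hβ0.ne' hpr.ne'] at h5
        linarith
      calc κ * (σ * Real.log N - Real.log β) ≤ κ * Real.log (Pr M c t) :=
            mul_le_mul_of_nonneg_left h4 hκ0
        _ = k * Real.log (Pr M c t) + (∑ j ∈ A', x j) / S * Real.log (Pr M c t) := by rw [hκ]; ring
        _ ≤ _ := by linarith
    have h3 := hLV σ xF T ((B * β) ^ K1) (Δ ^ (J * (K1 + 1))) U (W.filter (fun t => a t = A')) F hxF
      hT0.le (one_le_pow₀ (by nlinarith)) (one_le_pow₀ hΔ1) hU0 (fun t ht => hW t (mem_filter.1 ht).1)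
      (fun t ht u hu => hsep t (mem_filter.1 ht).1 u (mem_filter.1 hu).1) hF2 h1 h2
    refine h3.trans ?_
    rw [← hP, ← hq]
    have h4 : (xF : ℝ) ^ q ≤ 2 * R := by
      refine le_trans ?_ hexp
      rw [Real.rpow_def_of_pos hxF0, mul_comm]
      exact Real.exp_le_exp.2 hy1
    have h5 : T * (xF : ℝ) ^ (-P) ≤ 2 * R := by
      refine le_trans ?_ hexp
      rw [Real.rpow_def_of_pos hxF0]
      nth_rewrite 1 [← Real.exp_log hT0]
      rw [← Real.exp_add]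
      apply Real.exp_le_exp.2
      linarith
    have h6 : (xF : ℝ) ^ δ ≤ B ^ (ε / 2) * (N : ℝ) ^ (ε / 2) := by
      rw [← Real.mul_rpow hB0.le hN0.le, Real.rpow_def_of_pos hxF0, Real.rpow_def_of_pos hBN0, ← hκS]
      apply Real.exp_le_exp.2
      have h7 : κ * S ≤ K1 * Real.log (B * N) := by
        have h8 : 0 ≤ Real.log (B * N) := Real.log_nonneg hBN1
        calc κ * S ≤ κ * Real.log (B * N) := mul_le_mul_of_nonneg_left hSB hκ0
          _ ≤ _ := mul_le_mul_of_nonneg_right hκK h8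
      calc κ * S * δ ≤ K1 * Real.log (B * N) * δ := mul_le_mul_of_nonneg_right h7 hδ0.le
        _ = Real.log (B * N) * (ε / 2) := by
            rw [hδ]
            field_simp
    have h7 : (Δ ^ (J * (K1 + 1))) ^ 3 = C ^ E1 * (B ^ (ε / 2) * (N : ℝ) ^ (ε / 2)) := by
      rw [← pow_mul, ← hE1, hΔ, mul_pow, ← Real.mul_rpow hB0.le hN0.le]
      congr 1
      rw [← Real.rpow_natCast ((B * (N : ℝ)) ^ (K1 * η)), ← Real.rpow_mul hBN0.le]
      congr 1
      rw [hη]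
      field_simp
    have h8 : ((B * β) ^ K1) ^ 6 = B ^ (6 * K1) * β ^ (6 * K1) := by
      rw [← pow_mul, mul_comm K1 6, mul_pow]
    rw [h7, h8]
    have h9 : (N : ℝ) ^ (ε / 2) * (N : ℝ) ^ (ε / 2) = (N : ℝ) ^ ε := by
      rw [← Real.rpow_add hN0]
      congr 1
      ring
    calc K * (xF : ℝ) ^ δ * (C ^ E1 * (B ^ (ε / 2) * (N : ℝ) ^ (ε / 2)) *
          (B ^ (6 * K1) * β ^ (6 * K1))) * ((xF : ℝ) ^ q + T * (xF : ℝ) ^ (-P))
        ≤ K * (B ^ (ε / 2) * (N : ℝ) ^ (ε / 2)) * (C ^ E1 * (B ^ (ε / 2) * (N : ℝ) ^ (ε / 2)) *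
          (B ^ (6 * K1) * β ^ (6 * K1))) * (2 * R + 2 * R) := by gcongr
      _ = K * B ^ (ε / 2) * (C ^ E1 * B ^ (ε / 2)) * B ^ (6 * K1) * 4 *
          (β ^ (6 * K1) * ((N : ℝ) ^ (ε / 2) * (N : ℝ) ^ (ε / 2)) * R) := by ring
      _ = _ := by rw [h9]
  have hsumc : W.card = ∑ A' ∈ (univ : Finset (Finset (Fin J))),
      (W.filter (fun t => a t = A')).card :=
    card_eq_sum_card_fiberwise fun t _ => mem_coe.2 (mem_univ _)
  rw [hsumc]
  push_cast
  calc ∑ A' : Finset (Fin J), ((W.filter (fun t => a t = A')).card : ℝ)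
      ≤ ∑ _A' : Finset (Fin J), K * B ^ (ε / 2) * (C ^ E1 * B ^ (ε / 2)) * B ^ (6 * K1) * 4 *
        (β ^ (6 * K1) * (N : ℝ) ^ ε * R) := sum_le_sum fun A' _ => hone A'
    _ = (2 ^ J * (K * B ^ (ε / 2) * (C ^ E1 * B ^ (ε / 2)) * B ^ (6 * K1) * 4)) *
        (β ^ (6 * K1) * (N : ℝ) ^ ε * R) := by
        rw [sum_const, card_univ, Fintype.card_finset, Fintype.card_fin, nsmul_eq_mul]
        push_cast
        ring
    _ ≤ max 1 (2 ^ J * (K * B ^ (ε / 2) * (C ^ E1 * B ^ (ε / 2)) * B ^ (6 * K1) * 4)) *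
        (β ^ (6 * K1) * (N : ℝ) ^ ε * R) :=
        mul_le_mul_of_nonneg_right (le_max_right _ _) (by positivity)
    _ = _ := by ring

end Run7.h415.LV
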