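import Pool.Agent.Run7.h415.LV.Core

set_option autoImplicit false

/-!
# Large values of products, all thresholds
-/

namespace Run7.h415.LV

open Finset Pool.Agent.TH705.DL
open Pool.Agent.TH445.MQ
open Run7.h415.MQP

/-- the choice of the subproduct: length between `exp (lT / c)` and `exp (lT / c + ℓ)` -/
lemma choose2 {ι : Type*} [Fintype ι] [DecidableEq ι] (z x : ι → ℝ) (hx : ∀ i, 0 < x i)
    (S ℓ : ℝ) (hS : S = ∑ i, x i) (hS0 : 0 < S) (hℓ : ∀ i, x i ≤ ℓ) (hz : ∑ i, z i = 0)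
    (c lT : ℝ) (hc : 0 < c) (hlT : 0 ≤ lT) (k : ℕ) (hk : k = ⌊lT / (c * S)⌋₊) :
    ∃ A : Finset ι, 0 ≤ ∑ i ∈ A, z i ∧ lT / c ≤ k * S + ∑ i ∈ A, x i ∧
      k * S + ∑ i ∈ A, x i ≤ lT / c + ℓ := by
  obtain ⟨κ, hκ⟩ : ∃ κ : ℝ, κ = lT / (c * S) := ⟨_, rfl⟩
  rw [← hκ] at hk
  have hκ0 : 0 ≤ κ := by rw [hκ]; positivity
  have hk1 : (k : ℝ) ≤ κ := by rw [hk]; exact Nat.floor_le hκ0
  have hk2 : κ < k + 1 := by rw [hk]; exact Nat.lt_floor_add_one κ
  have hlTy : lT / c = κ * S := by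
    rw [hκ]
    field_simp
  obtain ⟨A, j, hj, hA1, hA2, hA3, hA4⟩ := greedy z x hx ((κ - k) * S)
    (mul_nonneg (by linarith) hS0.le) _ univ rfl hz.ge (by rw [← hS]; nlinarith)
  have hAj : ∑ i ∈ A, x i = x j + ∑ i ∈ A.erase j, x i := (add_sum_erase A x hj).symm
  have hjℓ := hℓ j
  refine ⟨A, hA1, ?_, ?_⟩
  · rw [hlTy]; linarith
  · rw [hlTy, hAj]; linarith

theorem core2 (J : ℕ) (hJ : 1 ≤ J) (p : ℝ → ℝ) (hLV : LV p) (K0 : ℕ) (ε B : ℝ) (hε : 0 < ε)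
    (hB : 1 ≤ B) :
    ∃ C : ℝ, 1 ≤ C ∧ ∀ (σ : ℝ) (N : ℕ) (T L : ℝ) (M : Fin J → ℕ) (c : Fin J → ℕ → ℂ)
      (W : Finset ℝ), 1 / 2 ≤ σ → σ ≤ 1 → 0 < p σ + (2 - 2 * σ) → 1 ≤ N → 1 ≤ T →
      Real.log T ≤ K0 * ((p σ + (2 - 2 * σ)) * ∑ j, Real.log (2 * M j)) →
      (∀ j, 1 ≤ M j) → (∀ j, (M j : ℝ) ≤ L) → ∏ j, (2 * (M j : ℝ)) ≤ B * N →
      (∀ j, ∑ n ∈ Icc 1 (M j), ‖c j n‖ ^ 2 ≤ M j) → (∀ t ∈ W, 0 ≤ t ∧ t ≤ T) → Sep W →
      (∀ t ∈ W, (N : ℝ) ^ σ ≤ Pr M c t) →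
      (W.card : ℝ) ≤ C * (N : ℝ) ^ ε *
        (L ^ (2 - 2 * σ) * T ^ ((2 - 2 * σ) / (p σ + (2 - 2 * σ)))) := by
  classical
  obtain ⟨K1, hK1⟩ : ∃ K1 : ℕ, K1 = K0 + 1 := ⟨_, rfl⟩
  have hK1r : (1 : ℝ) ≤ K1 := by rw [hK1]; push_cast; linarith [Nat.cast_nonneg (α := ℝ) K0]
  obtain ⟨E1, hE1⟩ : ∃ E1 : ℕ, E1 = J * (K1 + 1) * 3 := ⟨_, rfl⟩
  have hE1r : (1 : ℝ) ≤ E1 := by
    have : 1 ≤ E1 := by rw [hE1]; nlinarith [Nat.zero_le K1]
    exact_mod_cast this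
  obtain ⟨δ, hδ⟩ : ∃ δ : ℝ, δ = ε / (2 * K1) := ⟨_, rfl⟩
  obtain ⟨η, hη⟩ : ∃ η : ℝ, η = ε / (2 * K1 * E1) := ⟨_, rfl⟩
  have hδ0 : 0 < δ := by rw [hδ]; positivity
  have hη0 : 0 < η := by rw [hη]; positivity
  obtain ⟨K, hK, hLV⟩ := hLV δ hδ0
  obtain ⟨Cd, hCd0, hCd⟩ := Pool.Agent.H510R2.divisor_bound η hη0
  obtain ⟨C, hC⟩ : ∃ C : ℝ, C = max Cd 1 := ⟨_, rfl⟩
  have hC1 : 1 ≤ C := by rw [hC]; exact le_max_right _ _
  have hCdC : Cd ≤ C := by rw [hC]; exact le_max_left _ _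
  refine ⟨max 1 (2 ^ J * (K * B ^ (ε / 2) * (C ^ E1 * B ^ (ε / 2)) * B ^ (6 * K1) * 4)),
    le_max_left _ _, ?_⟩
  intro σ N T L M c W hσ hσ1 hpq hN hT hTK hM hML hMB hc hW hsep hWU
  obtain ⟨q, hq⟩ : ∃ q : ℝ, q = 2 - 2 * σ := ⟨_, rfl⟩
  rw [← hq] at hpq hTK ⊢
  have hq0 : 0 ≤ q := by rw [hq]; linarith
  have hq1 : q ≤ 1 := by rw [hq]; linarith
  obtain ⟨P, hP⟩ : ∃ P : ℝ, P = p σ := ⟨_, rfl⟩
  rw [← hP] at hpq hTK ⊢
  have hN1 : (1 : ℝ) ≤ N := by exact_mod_cast hN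
  have hN0 : (0 : ℝ) < N := by linarith
  have hlN : 0 ≤ Real.log N := Real.log_nonneg hN1
  have hMr : ∀ j, (1 : ℝ) ≤ M j := fun j => by exact_mod_cast hM j
  have hJ' : (univ : Finset (Fin J)).Nonempty := ⟨⟨0, hJ⟩, mem_univ _⟩
  obtain ⟨j0, -⟩ := hJ'
  have hL1 : 1 ≤ L := (hMr j0).trans (hML j0)
  have hL0 : 0 < L := by linarith
  set x : Fin J → ℝ := fun j => Real.log (2 * M j) with hx
  have hx0 : ∀ j, 0 < x j := fun j => Real.log_pos (by have := hMr j; linarith)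
  obtain ⟨S, hS⟩ : ∃ S : ℝ, S = ∑ j, x j := ⟨_, rfl⟩
  have hS0 : 0 < S := by rw [hS]; exact sum_pos (fun j _ => hx0 j) ⟨j0, mem_univ _⟩
  have hxℓ : ∀ j, x j ≤ Real.log (2 * L) := fun j =>
    Real.log_le_log (by have := hMr j; linarith) (by have := hML j; linarith)
  have hT0 : 0 < T := by linarith
  have hlT : 0 ≤ Real.log T := Real.log_nonneg hT
  have hpq0 : 0 < P + q := hpq
  obtain ⟨k, hk⟩ : ∃ k : ℕ, k = ⌊Real.log T / ((P + q) * S)⌋₊ := ⟨_, rfl⟩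
  have hSB : S ≤ Real.log (B * N) := by
    have : S = Real.log (∏ j, (2 * (M j : ℝ))) := by
      rw [Real.log_prod (fun j _ => by have := hMr j; positivity), hS]
    rw [this]
    exact Real.log_le_log (prod_pos fun j _ => by have := hMr j; positivity) hMB
  have hlB : 0 ≤ Real.log B := Real.log_nonneg hB
  have hB0 : 0 < B := by linarith
  have hlBN : Real.log (B * N) = Real.log B + Real.log N := Real.log_mul hB0.ne' hN0.ne'
  have hkK : k ≤ K0 := by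
    rw [hk]
    have h0 : (⌊Real.log T / ((P + q) * S)⌋₊ : ℝ) ≤ K0 := by
      refine (Nat.floor_le (by positivity)).trans ?_
      rw [div_le_iff₀ (by positivity), hS]
      exact hTK
    exact_mod_cast h0
  -- the choice
  have hch : ∀ t ∈ W, ∃ A' : Finset (Fin J),
      0 ≤ ∑ j ∈ A', (Real.log ‖ev (fac (M j) (c j)) t‖ - x j / S * Real.log (Pr M c t)) ∧
      Real.log T / (P + q) ≤ k * S + ∑ j ∈ A', x j ∧
      k * S + ∑ j ∈ A', x j ≤ Real.log T / (P + q) + Real.log (2 * L) := by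
    intro t ht
    have hpr : 0 < Pr M c t := by
      have h1 := hWU t ht
      have h2 : 0 < (N : ℝ) ^ σ := by positivity
      linarith
    have hne : ∀ j, ‖ev (fac (M j) (c j)) t‖ ≠ 0 := by
      unfold Pr at hpr
      exact fun j => (prod_ne_zero_iff.1 hpr.ne') j (mem_univ j)
    refine choose2 _ x hx0 S _ hS hS0 hxℓ ?_ (P + q) _ hpq0 hlT k hk
    rw [sum_sub_distrib, ← sum_mul, ← sum_div, ← hS, div_self hS0.ne', one_mul]
    unfold Pr
    rw [Real.log_prod (fun j _ => hne j), sub_self]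
  choose! a ha using hch
  obtain ⟨R, hR⟩ : ∃ R : ℝ, R = L ^ q * T ^ (q / (P + q)) := ⟨_, rfl⟩
  rw [← hR]
  have hR0 : 0 < R := by rw [hR]; positivity
  have hexp : Real.exp (q * (Real.log T / (P + q) + Real.log (2 * L))) ≤ 2 * R := by
    rw [mul_add, Real.exp_add, hR, Real.log_mul (by norm_num) hL0.ne', mul_add, Real.exp_add]
    have e1 : Real.exp (q * (Real.log T / (P + q))) = T ^ (q / (P + q)) := by
      rw [Real.rpow_def_of_pos hT0]
      congr 1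
      ring
    have e2 : Real.exp (q * Real.log L) = L ^ q := by
      rw [Real.rpow_def_of_pos hL0, mul_comm]
    have e3 : Real.exp (q * Real.log 2) ≤ 2 := by
      calc Real.exp (q * Real.log 2) ≤ Real.exp (Real.log 2) := by
            apply Real.exp_le_exp.2
            exact mul_le_of_le_one_left (Real.log_nonneg (by norm_num)) hq1
        _ = 2 := Real.exp_log (by norm_num)
    rw [e1, e2]
    calc T ^ (q / (P + q)) * (Real.exp (q * Real.log 2) * L ^ q)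
        ≤ T ^ (q / (P + q)) * (2 * L ^ q) := by gcongr
      _ = _ := by ring
  obtain ⟨Δ, hΔ⟩ : ∃ Δ : ℝ, Δ = C * (B * N) ^ (K1 * η) := ⟨_, rfl⟩
  have hBN1 : 1 ≤ B * N := by nlinarith
  have hBN0 : 0 < B * N := by linarith
  have hΔ1 : 1 ≤ Δ := by
    rw [hΔ]
    have : 1 ≤ (B * N) ^ (K1 * η) := Real.one_le_rpow hBN1 (by positivity)
    nlinarith
  have hdiv : ∀ n : ℕ, 1 ≤ n → (n : ℝ) ≤ (B * N) ^ K1 → (n.divisors.card : ℝ) ≤ Δ := by
    intro n hn hn2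
    refine (hCd n hn).trans ?_
    rw [hΔ]
    have h1 : (n : ℝ) ^ η ≤ (B * N) ^ (K1 * η) := by
      rw [Real.rpow_mul hBN0.le, Real.rpow_natCast]
      exact Real.rpow_le_rpow (Nat.cast_nonneg _) hn2 hη0.le
    exact mul_le_mul hCdC h1 (by positivity) (by positivity)
  -- one subproduct
  have hone : ∀ A' : Finset (Fin J), ((W.filter (fun t => a t = A')).card : ℝ) ≤
      K * B ^ (ε / 2) * (C ^ E1 * B ^ (ε / 2)) * B ^ (6 * K1) * 4 * ((N : ℝ) ^ ε * R) := by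
    intro A'
    rcases (W.filter (fun t => a t = A')).eq_empty_or_nonempty with h0 | h0
    · rw [h0, card_empty, Nat.cast_zero]
      positivity
    obtain ⟨t0, ht0⟩ := h0
    rw [mem_filter] at ht0
    obtain ⟨-, hy1, hy2⟩ := ha t0 ht0.1
    rw [ht0.2] at hy1 hy2
    obtain ⟨F, xF, hxF, hlx, hF2, hFt⟩ := power M c A' k K1 (by omega) hM hc Δ ((B * N) ^ K1)
      (pow_le_pow_left₀ (prod_nonneg fun j _ => by have := hMr j; positivity) hMB K1) hΔ1 hdiv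
    change Real.log xF = k * ∑ j, x j + ∑ j ∈ A', x j at hlx
    rw [← hS] at hlx
    rw [← hlx] at hy1 hy2
    have hxF1 : (1 : ℝ) ≤ xF := by exact_mod_cast hxF
    have hxF0 : (0 : ℝ) < xF := by linarith
    have hxA0 : 0 ≤ ∑ j ∈ A', x j := sum_nonneg fun j _ => (hx0 j).le
    have hxAS : ∑ j ∈ A', x j ≤ S := by
      rw [hS]
      exact sum_le_sum_of_subset_of_nonneg (subset_univ _) fun j _ _ => (hx0 j).le
    obtain ⟨κ, hκ⟩ : ∃ κ : ℝ, κ = k + (∑ j ∈ A', x j) / S := ⟨_, rfl⟩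
    have hκS : κ * S = Real.log xF := by rw [hκ, hlx]; field_simp
    have hκ0 : 0 ≤ κ := by rw [hκ]; positivity
    have hκK : κ ≤ K1 := by
      rw [hκ, hK1]
      have h1 : (∑ j ∈ A', x j) / S ≤ 1 := by rw [div_le_one hS0]; exact hxAS
      have h2 : (k : ℝ) ≤ K0 := by exact_mod_cast hkK
      push_cast
      linarith
    obtain ⟨U, hU⟩ : ∃ U : ℝ, U = Real.exp (κ * (σ * Real.log N)) := ⟨_, rfl⟩
    have hU0 : 0 < U := by rw [hU]; exact Real.exp_pos _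
    have h1 : (xF : ℝ) ^ σ ≤ B ^ K1 * U := by
      rw [hU, Real.rpow_def_of_pos hxF0, ← hκS]
      have e1 : (B ^ K1 : ℝ) = Real.exp (K1 * Real.log B) := by
        rw [← Real.log_pow, Real.exp_log (by positivity)]
      rw [e1, ← Real.exp_add]
      apply Real.exp_le_exp.2
      have h2 : κ * σ * S ≤ κ * σ * (Real.log B + Real.log N) := by
        apply mul_le_mul_of_nonneg_left _ (by positivity)
        rw [← hlBN]; exact hSB
      have h3 : κ * σ * Real.log B ≤ K1 * Real.log B := by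
        apply mul_le_mul_of_nonneg_right _ hlB
        nlinarith
      nlinarith
    have h2 : ∀ t ∈ W.filter (fun t => a t = A'), U ≤ ‖∑ n ∈ Icc 1 xF, F n * ph t n‖ := by
      intro t ht
      rw [mem_filter] at ht
      have hpr : 0 < Pr M c t := by
        have h1 := hWU t ht.1
        have h2 : 0 < (N : ℝ) ^ σ := by positivity
        linarith
      have hpos : ∀ j, 0 < ‖ev (fac (M j) (c j)) t‖ := by
        intro j
        have : ‖ev (fac (M j) (c j)) t‖ ≠ 0 := by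
          unfold Pr at hpr
          exact (prod_ne_zero_iff.1 hpr.ne') j (mem_univ j)
        exact lt_of_le_of_ne (norm_nonneg _) (Ne.symm this)
      obtain ⟨hFl, hF0⟩ := hFt t hpos
      rw [← Real.exp_log hF0, hFl, hU]
      apply Real.exp_le_exp.2
      have hsum : ∑ j, Real.log ‖ev (fac (M j) (c j)) t‖ = Real.log (Pr M c t) := by
        unfold Pr
        rw [Real.log_prod (fun j _ => (hpos j).ne')]
      rw [hsum]
      have h3 := (ha t ht.1).1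
      rw [ht.2, sum_sub_distrib, ← sum_mul, ← sum_div] at h3
      have h4 : σ * Real.log N ≤ Real.log (Pr M c t) := by
        have h5 := Real.log_le_log (by positivity) (hWU t ht.1)
        rwa [Real.log_rpow hN0] at h5
      calc κ * (σ * Real.log N) ≤ κ * Real.log (Pr M c t) :=
            mul_le_mul_of_nonneg_left h4 hκ0
        _ = k * Real.log (Pr M c t) + (∑ j ∈ A', x j) / S * Real.log (Pr M c t) := by rw [hκ]; ring
        _ ≤ _ := by linarith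
    have h3 := hLV σ xF T (B ^ K1) (Δ ^ (J * (K1 + 1))) U (W.filter (fun t => a t = A')) F hxF
      hT0.le (one_le_pow₀ hB) (one_le_pow₀ hΔ1) hU0 (fun t ht => hW t (mem_filter.1 ht).1)
      (fun t ht u hu => hsep t (mem_filter.1 ht).1 u (mem_filter.1 hu).1) hF2 h1 h2
    refine h3.trans ?_
    rw [← hP, ← hq]
    have h4 : (xF : ℝ) ^ q ≤ 2 * R := by
      refine le_trans ?_ hexp
      rw [Real.rpow_def_of_pos hxF0, mul_comm]
      exact Real.exp_le_exp.2 (mul_le_mul_of_nonneg_left hy2 hq0)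
    have h5 : T * (xF : ℝ) ^ (-P) ≤ 2 * R := by
      refine le_trans ?_ hexp
      rw [Real.rpow_def_of_pos hxF0]
      nth_rewrite 1 [← Real.exp_log hT0]
      rw [← Real.exp_add]
      apply Real.exp_le_exp.2
      have h10 : Real.log T ≤ (P + q) * Real.log xF := by
        rw [div_le_iff₀ hpq0] at hy1
        linarith
      have h11 := mul_le_mul_of_nonneg_left hy2 hq0
      nlinarith
    have h6 : (xF : ℝ) ^ δ ≤ B ^ (ε / 2) * (N : ℝ) ^ (ε / 2) := by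
      rw [← Real.mul_rpow hB0.le hN0.le, Real.rpow_def_of_pos hxF0, Real.rpow_def_of_pos hBN0, ← hκS]
      apply Real.exp_le_exp.2
      have h7 : κ * S ≤ K1 * Real.log (B * N) := by
        have h8 : 0 ≤ Real.log (B * N) := Real.log_nonneg hBN1
        calc κ * S ≤ κ * Real.log (B * N) := mul_le_mul_of_nonneg_left hSB hκ0
          _ ≤ _ := mul_le_mul_of_nonneg_right hκK h8
      calc κ * S * δ ≤ K1 * Real.log (B * N) * δ := mul_le_mul_of_nonneg_right h7 hδ0.le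
        _ = Real.log (B * N) * (ε / 2) := by
            rw [hδ]
            field_simp
    have h7 : (Δ ^ (J * (K1 + 1))) ^ 3 = C ^ E1 * (B ^ (ε / 2) * (N : ℝ) ^ (ε / 2)) := by
      rw [← pow_mul, ← hE1, hΔ, mul_pow, ← Real.mul_rpow hB0.le hN0.le]
      congr 1
      rw [← Real.rpow_natCast ((B * (N : ℝ)) ^ (K1 * η)), ← Real.rpow_mul hBN0.le]
      congr 1
      rw [hη]
      field_simp
    have h8 : (B ^ K1) ^ 6 = B ^ (6 * K1) := by
      rw [← pow_mul, mul_comm K1 6]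
    rw [h7, h8]
    have h9 : (N : ℝ) ^ (ε / 2) * (N : ℝ) ^ (ε / 2) = (N : ℝ) ^ ε := by
      rw [← Real.rpow_add hN0]
      congr 1
      ring
    calc K * (xF : ℝ) ^ δ * (C ^ E1 * (B ^ (ε / 2) * (N : ℝ) ^ (ε / 2)) *
          B ^ (6 * K1)) * ((xF : ℝ) ^ q + T * (xF : ℝ) ^ (-P))
        ≤ K * (B ^ (ε / 2) * (N : ℝ) ^ (ε / 2)) * (C ^ E1 * (B ^ (ε / 2) * (N : ℝ) ^ (ε / 2)) *
          B ^ (6 * K1)) * (2 * R + 2 * R) := by gcongr
      _ = K * B ^ (ε / 2) * (C ^ E1 * B ^ (ε / 2)) * B ^ (6 * K1) * 4 *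
          (((N : ℝ) ^ (ε / 2) * (N : ℝ) ^ (ε / 2)) * R) := by ring
      _ = _ := by rw [h9]
  have hsumc : W.card = ∑ A' ∈ (univ : Finset (Finset (Fin J))),
      (W.filter (fun t => a t = A')).card :=
    card_eq_sum_card_fiberwise fun t _ => mem_coe.2 (mem_univ _)
  rw [hsumc]
  push_cast
  calc ∑ A' : Finset (Fin J), ((W.filter (fun t => a t = A')).card : ℝ)
      ≤ ∑ _A' : Finset (Fin J), K * B ^ (ε / 2) * (C ^ E1 * B ^ (ε / 2)) * B ^ (6 * K1) * 4 *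
        ((N : ℝ) ^ ε * R) := sum_le_sum fun A' _ => hone A'
    _ = (2 ^ J * (K * B ^ (ε / 2) * (C ^ E1 * B ^ (ε / 2)) * B ^ (6 * K1) * 4)) *
        ((N : ℝ) ^ ε * R) := by
        rw [sum_const, card_univ, Fintype.card_finset, Fintype.card_fin, nsmul_eq_mul]
        push_cast
        ring
    _ ≤ max 1 (2 ^ J * (K * B ^ (ε / 2) * (C ^ E1 * B ^ (ε / 2)) * B ^ (6 * K1) * 4)) *
        ((N : ℝ) ^ ε * R) :=
        mul_le_mul_of_nonneg_right (le_max_right _ _) (by positivity)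
    _ = _ := by ring

end Run7.h415.LV
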