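import Pool.Agent.Run7.h415.LV.Hm
import Pool.Agent.Run7.h415.MQP.One

set_option autoImplicit false

/-!
# Large values of products: the choice of the power
-/

namespace Run7.h415.LV

open Finset Pool.Agent.TH705.DL
open Pool.Agent.TH445.MQ
open Run7.h415.MQP

lemma greedy {ι : Type*} [DecidableEq ι] (z x : ι → ℝ) (hx : ∀ i, 0 < x i) (c : ℝ) (hc : 0 ≤ c) :
    ∀ (n : ℕ) (I : Finset ι), I.card = n → 0 ≤ ∑ i ∈ I, z i → c < ∑ i ∈ I, x i →
      ∃ A : Finset ι, ∃ j ∈ A, 0 ≤ ∑ i ∈ A, z i ∧ 0 ≤ ∑ i ∈ A.erase j, z i ∧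
        c ≤ ∑ i ∈ A, x i ∧ ∑ i ∈ A.erase j, x i ≤ c := by
  intro n
  induction n with
  | zero =>
    intro I hI _ hcI
    rw [card_eq_zero] at hI
    subst hI
    rw [sum_empty] at hcI
    linarith
  | succ n ih =>
    intro I hI hz hcI
    have hne : I.Nonempty := card_pos.1 (by omega)
    obtain ⟨j, hj, hzj⟩ : ∃ j ∈ I, 0 ≤ ∑ i ∈ I.erase j, z i := by
      by_cases h : ∃ j ∈ I, z j ≤ 0
      · obtain ⟨j, hj, h⟩ := h
        refine ⟨j, hj, ?_⟩
        rw [← add_sum_erase I z hj] at hz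
        linarith
      · push Not at h
        obtain ⟨j, hj⟩ := hne
        exact ⟨j, hj, sum_nonneg fun i hi => (h i (mem_of_mem_erase hi)).le⟩
    rcases le_or_gt (∑ i ∈ I.erase j, x i) c with h | h
    · exact ⟨I, j, hj, hz, hzj, hcI.le, h⟩
    · exact ih (I.erase j) (by rw [card_erase_of_mem hj]; omega) hzj h

/-- the choice of the subproduct: `Y = log` of the length of the power, `S` the logarithm of the
length of the polynomial, `k` copies of the whole polynomial are used -/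
lemma choose {ι : Type*} [Fintype ι] [DecidableEq ι] (z x : ι → ℝ) (hx : ∀ i, 0 < x i)
    (S ℓ : ℝ) (hS : S = ∑ i, x i) (hS0 : 0 < S) (hℓ : ∀ i, x i ≤ ℓ) (hz : ∑ i, z i = 0)
    (p q lT : ℝ) (hp : 0 ≤ p) (hq : 0 ≤ q) (hpq : 0 < p + q) (hlT : 0 ≤ lT) (k : ℕ)
    (hk : k = ⌊lT / ((p + q) * S)⌋₊) :
    ∃ A : Finset ι, 0 ≤ ∑ i ∈ A, z i ∧
      q * (k * S + ∑ i ∈ A, x i) ≤ q / (p + q) * lT + p * q / (p + q) * ℓ ∧
      lT - p * (k * S + ∑ i ∈ A, x i) ≤ q / (p + q) * lT + p * q / (p + q) * ℓ := by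
  obtain ⟨κ, hκ⟩ : ∃ κ : ℝ, κ = lT / ((p + q) * S) := ⟨_, rfl⟩
  rw [← hκ] at hk
  have hκ0 : 0 ≤ κ := by rw [hκ]; positivity
  have hk1 : (k : ℝ) ≤ κ := by rw [hk]; exact Nat.floor_le hκ0
  have hk2 : κ < k + 1 := by rw [hk]; exact Nat.lt_floor_add_one κ
  obtain ⟨y, hy⟩ : ∃ y : ℝ, y = κ * S := ⟨_, rfl⟩
  have hlTy : lT = (p + q) * y := by
    rw [hy, hκ]
    field_simp
  obtain ⟨A, j, hj, hA1, hA2, hA3, hA4⟩ := greedy z x hx ((κ - k) * S)
    (mul_nonneg (by linarith) hS0.le) _ univ rfl hz.ge (by rw [← hS]; nlinarith)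
  have hAj : ∑ i ∈ A, x i = x j + ∑ i ∈ A.erase j, x i := (add_sum_erase A x hj).symm
  obtain ⟨a, ha⟩ : ∃ a : ℝ, a = ∑ i ∈ A, x i := ⟨_, rfl⟩
  obtain ⟨b, hb⟩ : ∃ b : ℝ, b = ∑ i ∈ A.erase j, x i := ⟨_, rfl⟩
  rw [← ha] at hA3 hAj
  rw [← hb] at hA4 hAj
  have hjℓ := hℓ j
  have hℓ0 : 0 < ℓ := lt_of_lt_of_le (hx j) hjℓ
  have e1 : q / (p + q) * lT = q * y := by rw [hlTy]; field_simp
  rw [e1]
  have hτ : 0 ≤ p * q / (p + q) * ℓ := by positivity
  obtain ⟨τ, hτd⟩ : ∃ τ : ℝ, τ = p * q / (p + q) * ℓ := ⟨_, rfl⟩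
  rw [← hτd] at hτ ⊢
  have hτ2 : τ * (p + q) = p * q * ℓ := by rw [hτd]; field_simp
  have hya : y ≤ k * S + a := by rw [hy]; linarith
  have hyb : k * S + b ≤ y := by rw [hy]; linarith
  by_cases h1 : q * (k * S + a) ≤ q * y + τ
  · refine ⟨A, hA1, ?_, ?_⟩
    · rw [← ha]; exact h1
    · rw [← ha, hlTy]
      nlinarith
  · refine ⟨A.erase j, hA2, ?_, ?_⟩
    · rw [← hb]
      nlinarith
    · rw [← hb, hlTy]
      push Not at h1
      -- `q (kS + a - y) > τ`, need `p (y - kS - b) ≤ τ`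
      by_contra h2
      push Not at h2
      have h3 : τ < q * (k * S + a - y) := by linarith
      have h4 : τ < p * (y - (k * S + b)) := by linarith
      have hq0 : 0 < q := by
        rcases hq.eq_or_lt with h | h
        · rw [← h] at h3; linarith
        · exact h
      have hp0 : 0 < p := by
        rcases hp.eq_or_lt with h | h
        · rw [← h] at h4; linarith
        · exact h
      have h5 : p * τ < p * q * (k * S + a - y) := by nlinarith
      have h6 : q * τ < p * q * (y - (k * S + b)) := by nlinarith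
      have h7 : p * q * (a - b) ≤ p * q * ℓ := by
        apply mul_le_mul_of_nonneg_left _ (by positivity)
        linarith
      nlinarith

end Run7.h415.LV
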