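import Pool.Agent.Y959.Rs.RealK

set_option autoImplicit false

/-!
# Large values: the mean value theorem and Halász–Montgomery–Huxley
-/

namespace Run7.h415.LV

open Finset Pool.Agent.TH705.DL
open Pool.Agent.Y959.Rs (ker_real harm_real moment_R)

lemma dual (N : ℕ) (hN : 1 ≤ N) (T : ℝ) (hT : 0 ≤ T) (W : Finset ℝ)
    (hW : ∀ t ∈ W, 0 ≤ t ∧ t ≤ T) (hsep : Sep W) (η : ℝ → ℂ) (hη : ∀ t ∈ W, ‖η t‖ = 1) :
    ∑ n ∈ Icc 1 N, ‖∑ t ∈ W, η t * ph t n‖ ^ 2 ≤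
      W.card * (N + ((Nat.log 2 N : ℝ) + 1) * (84 * N * (1 + Real.log (T + 1)) +
        W.card * (14 * Real.sqrt (T * (1 + Real.log N))))) := by
  classical
  have h1 : ((∑ n ∈ Icc 1 N, ‖∑ t ∈ W, η t * ph t n‖ ^ 2 : ℝ) : ℂ) =
      ∑ t ∈ W, ∑ u ∈ W, η t * (starRingEnd ℂ) (η u) * ∑ n ∈ Icc 1 N, ph (t - u) n := by
    push_cast
    have h2 : ∀ n ∈ Icc 1 N, ((‖∑ t ∈ W, η t * ph t n‖ : ℂ)) ^ 2 =
        ∑ t ∈ W, ∑ u ∈ W, η t * (starRingEnd ℂ) (η u) * ph (t - u) n := by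
      intro n _
      rw [← Complex.mul_conj', map_sum, sum_mul_sum]
      apply sum_congr rfl
      intro i _
      apply sum_congr rfl
      intro j _
      rw [map_mul, ← ph_sub]
      ring
    rw [sum_congr rfl h2, sum_comm]
    apply sum_congr rfl
    intro i _
    rw [sum_comm]
    apply sum_congr rfl
    intro j _
    rw [mul_sum]
  have h3 : ∑ n ∈ Icc 1 N, ‖∑ t ∈ W, η t * ph t n‖ ^ 2 ≤
      ∑ t ∈ W, ∑ u ∈ W, ‖∑ n ∈ Icc 1 N, ph (t - u) n‖ := by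
    have h0 : 0 ≤ ∑ n ∈ Icc 1 N, ‖∑ t ∈ W, η t * ph t n‖ ^ 2 :=
      sum_nonneg fun _ _ => sq_nonneg _
    rw [← Real.norm_of_nonneg h0, ← Complex.norm_real, h1]
    refine (norm_sum_le _ _).trans (sum_le_sum fun i hi => ?_)
    refine (norm_sum_le _ _).trans (sum_le_sum fun j hj => ?_)
    rw [norm_mul, norm_mul, RCLike.norm_conj, hη i hi, hη j hj, one_mul, one_mul]
  refine h3.trans ?_
  have h4 : ∀ t ∈ W, ∑ u ∈ W, ‖∑ n ∈ Icc 1 N, ph (t - u) n‖ ≤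
      N + ((Nat.log 2 N : ℝ) + 1) * (84 * N * (1 + Real.log (T + 1)) +
        W.card * (14 * Real.sqrt (T * (1 + Real.log N)))) := by
    intro t ht
    rw [← add_sum_erase W _ ht]
    have h5 : ∑ u ∈ W.erase t, ‖∑ n ∈ Icc 1 N, ph (t - u) n‖ ≤
        ∑ u ∈ W.erase t, ((Nat.log 2 N : ℝ) + 1) * (42 * N * (1 / |t - u|) +
          14 * Real.sqrt (T * (1 + Real.log N))) := by
      apply sum_le_sum
      intro u hu
      have hne := ne_of_mem_erase hu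
      have huW := mem_of_mem_erase hu
      apply ker_real N hN T (t - u) (sub_ne_zero.2 (Ne.symm hne))
      have h6 := hW t ht
      have h7 := hW u huW
      rw [abs_le]
      constructor <;> linarith
    rw [← mul_sum, sum_add_distrib, ← mul_sum, sum_const, nsmul_eq_mul] at h5
    have h6 := mul_le_mul_of_nonneg_left (harm_real T hT W hW hsep t ht)
      (by positivity : (0 : ℝ) ≤ 42 * N)
    have h7 : ‖∑ n ∈ Icc 1 N, ph (t - t) n‖ ≤ N := by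
      refine (norm_sum_le _ _).trans ?_
      rw [sum_congr rfl fun n _ => ph_norm (t - t) n, sum_const, Nat.card_Icc, nsmul_eq_mul, mul_one,
        Nat.add_sub_cancel]
    have h8 : ((W.erase t).card : ℝ) * (14 * Real.sqrt (T * (1 + Real.log N))) ≤
        W.card * (14 * Real.sqrt (T * (1 + Real.log N))) := by
      apply mul_le_mul_of_nonneg_right _ (by positivity)
      exact_mod_cast card_le_card (erase_subset _ _)
    have h9 : 42 * N * ∑ u ∈ W.erase t, 1 / |t - u| +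
        ((W.erase t).card : ℝ) * (14 * Real.sqrt (T * (1 + Real.log N))) ≤
        84 * N * (1 + Real.log (T + 1)) + W.card * (14 * Real.sqrt (T * (1 + Real.log N))) := by
      linarith
    have h10 := mul_le_mul_of_nonneg_left h9 (by positivity : (0 : ℝ) ≤ (Nat.log 2 N : ℝ) + 1)
    linarith
  calc ∑ t ∈ W, ∑ u ∈ W, ‖∑ n ∈ Icc 1 N, ph (t - u) n‖
      ≤ ∑ t ∈ W, ((N : ℝ) + ((Nat.log 2 N : ℝ) + 1) * (84 * N * (1 + Real.log (T + 1)) +
        W.card * (14 * Real.sqrt (T * (1 + Real.log N))))) := sum_le_sum h4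
    _ = _ := by rw [sum_const, nsmul_eq_mul]

/-- Halász–Montgomery -/
lemma hm (x : ℕ) (hx : 1 ≤ x) (T : ℝ) (hT : 0 ≤ T) (W : Finset ℝ)
    (hW : ∀ t ∈ W, 0 ≤ t ∧ t ≤ T) (hsep : Sep W) (a : ℕ → ℂ) (U G : ℝ) (hU : 0 < U)
    (hG : ∑ n ∈ Icc 1 x, ‖a n‖ ^ 2 ≤ G)
    (hWU : ∀ t ∈ W, U ≤ ‖∑ n ∈ Icc 1 x, a n * ph t n‖) :
    U ^ 2 * W.card ≤ G * (x + ((Nat.log 2 x : ℝ) + 1) * (84 * x * (1 + Real.log (T + 1)) +
        W.card * (14 * Real.sqrt (T * (1 + Real.log x))))) := by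
  classical
  have hG0 : 0 ≤ G := le_trans (sum_nonneg fun _ _ => by positivity) hG
  have hx1 : (1 : ℝ) ≤ x := by exact_mod_cast hx
  have hlx : 0 ≤ Real.log x := Real.log_nonneg hx1
  have hlT : 0 ≤ Real.log (T + 1) := Real.log_nonneg (by linarith)
  rcases W.eq_empty_or_nonempty with h0 | h0
  · subst h0
    simp only [card_empty, Nat.cast_zero, mul_zero]
    positivity
  have hc : (0 : ℝ) < W.card := by exact_mod_cast card_pos.2 h0
  set F : ℝ → ℂ := fun t => ∑ n ∈ Icc 1 x, a n * ph t n with hF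
  set η : ℝ → ℂ := fun t => (starRingEnd ℂ) (F t) / ‖F t‖ with hη
  have hFp : ∀ t ∈ W, 0 < ‖F t‖ := fun t ht => lt_of_lt_of_le hU (hWU t ht)
  have hη1 : ∀ t ∈ W, ‖η t‖ = 1 := by
    intro t ht
    simp only [hη]
    rw [norm_div, RCLike.norm_conj, Complex.norm_real, norm_norm, div_self (hFp t ht).ne']
  have hηF : ∀ t ∈ W, η t * F t = ‖F t‖ := by
    intro t ht
    simp only [hη]
    have h1 : (‖F t‖ : ℂ) ≠ 0 := by exact_mod_cast (hFp t ht).ne'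
    rw [div_mul_eq_mul_div, mul_comm, Complex.mul_conj', sq, mul_div_assoc, div_self h1, mul_one]
  have h1 : U * W.card ≤ ∑ n ∈ Icc 1 x, ‖a n‖ * ‖∑ t ∈ W, η t * ph t n‖ := by
    have e : ((∑ t ∈ W, ‖F t‖ : ℝ) : ℂ) = ∑ n ∈ Icc 1 x, a n * ∑ t ∈ W, η t * ph t n := by
      push_cast
      rw [← sum_congr rfl hηF]
      simp only [hF, mul_sum]
      rw [sum_comm]
      refine sum_congr rfl fun n _ => sum_congr rfl fun t _ => ?_
      ring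
    have h2 : ∑ t ∈ W, ‖F t‖ ≤ ∑ n ∈ Icc 1 x, ‖a n‖ * ‖∑ t ∈ W, η t * ph t n‖ := by
      have h3 : 0 ≤ ∑ t ∈ W, ‖F t‖ := sum_nonneg fun _ _ => norm_nonneg _
      rw [← Real.norm_of_nonneg h3, ← Complex.norm_real, e]
      refine (norm_sum_le _ _).trans (le_of_eq ?_)
      exact sum_congr rfl fun n _ => norm_mul _ _
    refine le_trans ?_ h2
    calc U * W.card = ∑ _t ∈ W, U := by rw [sum_const, nsmul_eq_mul, mul_comm]
      _ ≤ ∑ t ∈ W, ‖F t‖ := sum_le_sum hWU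
  have h2 := dual x hx T hT W hW hsep η hη1
  set B := (x : ℝ) + ((Nat.log 2 x : ℝ) + 1) * (84 * x * (1 + Real.log (T + 1)) +
        W.card * (14 * Real.sqrt (T * (1 + Real.log x)))) with hB
  have h3 : (U * W.card) ^ 2 ≤ G * (W.card * B) := by
    calc (U * W.card) ^ 2 ≤ (∑ n ∈ Icc 1 x, ‖a n‖ * ‖∑ t ∈ W, η t * ph t n‖) ^ 2 :=
          pow_le_pow_left₀ (by positivity) h1 2
      _ ≤ (∑ n ∈ Icc 1 x, ‖a n‖ ^ 2) * ∑ n ∈ Icc 1 x, ‖∑ t ∈ W, η t * ph t n‖ ^ 2 :=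
          sum_mul_sq_le_sq_mul_sq _ _ _
      _ ≤ G * (W.card * B) :=
          mul_le_mul hG h2 (sum_nonneg fun _ _ => by positivity) hG0
  have h4 : (U ^ 2 * W.card) * W.card ≤ (G * B) * W.card := by
    calc (U ^ 2 * W.card) * W.card = (U * W.card) ^ 2 := by ring
      _ ≤ G * (W.card * B) := h3
      _ = (G * B) * W.card := by ring
  exact le_of_mul_le_mul_right h4 hc

/-- the logarithms -/
noncomputable def A1 (x : ℕ) : ℝ := 1 + ((Nat.log 2 x : ℝ) + 1) * (84 * (1 + Real.log ((x : ℝ) ^ 2 + 1)))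

/-- the logarithms -/
noncomputable def A2 (x : ℕ) : ℝ := ((Nat.log 2 x : ℝ) + 1) * (14 * Real.sqrt (1 + Real.log x))

/-- Huxley's subdivision -/
lemma hux (x : ℕ) (hx : 1 ≤ x) (T : ℝ) (hT : 0 ≤ T) (W : Finset ℝ)
    (hW : ∀ t ∈ W, 0 ≤ t ∧ t ≤ T) (hsep : Sep W) (a : ℕ → ℂ) (U G : ℝ) (hU : 0 < U)
    (hG : ∑ n ∈ Icc 1 x, ‖a n‖ ^ 2 ≤ G)
    (hWU : ∀ t ∈ W, U ≤ ‖∑ n ∈ Icc 1 x, a n * ph t n‖) :
    (W.card : ℝ) ≤ 2 * A1 x * (G * x / U ^ 2) + 8 * (A1 x * A2 x ^ 2) * (T * (G ^ 3 * x / U ^ 6)) := by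
  classical
  have hG0 : 0 ≤ G := le_trans (sum_nonneg fun _ _ => by positivity) hG
  have hx1 : (1 : ℝ) ≤ x := by exact_mod_cast hx
  have hlx : 0 ≤ Real.log x := Real.log_nonneg hx1
  have hlx2 : 0 ≤ Real.log ((x : ℝ) ^ 2 + 1) := Real.log_nonneg (by nlinarith)
  have hA1 : 1 ≤ A1 x := by
    unfold A1
    have : 0 ≤ ((Nat.log 2 x : ℝ) + 1) * (84 * (1 + Real.log ((x : ℝ) ^ 2 + 1))) := by positivity
    linarith
  have hA2 : 1 ≤ A2 x := by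
    unfold A2
    have h1 : 1 ≤ Real.sqrt (1 + Real.log x) := by
      rw [Real.one_le_sqrt]; linarith
    have h2 : (1 : ℝ) ≤ (Nat.log 2 x : ℝ) + 1 := by
      have : (0 : ℝ) ≤ (Nat.log 2 x : ℝ) := Nat.cast_nonneg _
      linarith
    nlinarith
  rcases W.eq_empty_or_nonempty with h0 | h0
  · subst h0
    simp only [card_empty, Nat.cast_zero]
    positivity
  obtain ⟨t0, ht0⟩ := h0
  have hUG : U ^ 2 ≤ G * x := by
    have h1 := hWU t0 ht0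
    have h2 : ‖∑ n ∈ Icc 1 x, a n * ph t0 n‖ ≤ ∑ n ∈ Icc 1 x, ‖a n‖ * 1 := by
      refine (norm_sum_le _ _).trans (le_of_eq ?_)
      exact sum_congr rfl fun n _ => by rw [norm_mul, ph_norm]
    calc U ^ 2 ≤ (∑ n ∈ Icc 1 x, ‖a n‖ * 1) ^ 2 := pow_le_pow_left₀ hU.le (h1.trans h2) 2
      _ ≤ (∑ n ∈ Icc 1 x, ‖a n‖ ^ 2) * ∑ _n ∈ Icc 1 x, (1 : ℝ) ^ 2 := sum_mul_sq_le_sq_mul_sq _ _ _
      _ ≤ G * x := by
          apply mul_le_mul hG _ (by positivity) hG0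
          rw [sum_const, Nat.card_Icc, nsmul_eq_mul]
          simp
  have hGp : 0 < G := by
    rcases hG0.eq_or_lt with h | h
    · rw [← h, zero_mul] at hUG
      have : 0 < U ^ 2 := by positivity
      linarith
    · exact h
  obtain ⟨T0, hT0⟩ : ∃ T0 : ℝ, T0 = U ^ 4 / (4 * G ^ 2 * A2 x ^ 2) := ⟨_, rfl⟩
  have hA2p : 0 < A2 x := by linarith
  have hT0p : 0 < T0 := by rw [hT0]; positivity
  have hT0x : T0 ≤ (x : ℝ) ^ 2 := by
    rw [hT0, div_le_iff₀ (by positivity)]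
    have h1 : U ^ 4 ≤ G ^ 2 * (x : ℝ) ^ 2 := by
      calc U ^ 4 = (U ^ 2) ^ 2 := by ring
        _ ≤ (G * x) ^ 2 := pow_le_pow_left₀ (by positivity) hUG 2
        _ = _ := by ring
    have h2 : 1 ≤ 4 * A2 x ^ 2 := by nlinarith
    calc U ^ 4 ≤ G ^ 2 * (x : ℝ) ^ 2 := h1
      _ ≤ G ^ 2 * (x : ℝ) ^ 2 * (4 * A2 x ^ 2) := le_mul_of_one_le_right (by positivity) h2
      _ = _ := by ring
  have hsq : G * (((Nat.log 2 x : ℝ) + 1) * (14 * Real.sqrt (T0 * (1 + Real.log x)))) = U ^ 2 / 2 := by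
    have h1 : Real.sqrt T0 = U ^ 2 / (2 * G * A2 x) := by
      rw [hT0, show U ^ 4 / (4 * G ^ 2 * A2 x ^ 2) = (U ^ 2 / (2 * G * A2 x)) ^ 2 by
        field_simp; ring]
      exact Real.sqrt_sq (by positivity)
    rw [Real.sqrt_mul hT0p.le, h1]
    have h2 : ((Nat.log 2 x : ℝ) + 1) * (14 * (U ^ 2 / (2 * G * A2 x) * Real.sqrt (1 + Real.log x))) =
        U ^ 2 / (2 * G * A2 x) * A2 x := by
      unfold A2; ring
    rw [h2]
    field_simp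
  -- one block
  have hblk : ∀ i : ℕ, ((W.filter (fun t => ⌊t / T0⌋₊ = i)).card : ℝ) ≤ 2 * A1 x * (G * x / U ^ 2) := by
    intro i
    set V : Finset ℝ := (W.filter (fun t => ⌊t / T0⌋₊ = i)).image (fun t => t - i * T0) with hV
    have hinj : Function.Injective (fun t : ℝ => t - i * T0) := fun _ _ h => by
      simpa using h
    have hVc : V.card = (W.filter (fun t => ⌊t / T0⌋₊ = i)).card := card_image_of_injective _ hinj
    have h1 : ∀ t ∈ V, 0 ≤ t ∧ t ≤ T0 := by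
      intro t ht
      rw [hV, mem_image] at ht
      obtain ⟨u, hu, rfl⟩ := ht
      rw [mem_filter] at hu
      have hu0 : 0 ≤ u / T0 := div_nonneg (hW u hu.1).1 hT0p.le
      have h2 := Nat.floor_le hu0
      have h3 := Nat.lt_floor_add_one (u / T0)
      rw [hu.2] at h2 h3
      rw [le_div_iff₀ hT0p] at h2
      rw [div_lt_iff₀ hT0p] at h3
      constructor <;> linarith
    have h2 : Sep V := by
      intro t ht u hu htu
      rw [hV, mem_image] at ht hu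
      obtain ⟨t', ht', rfl⟩ := ht
      obtain ⟨u', hu', rfl⟩ := hu
      have := hsep t' (mem_filter.1 ht').1 u' (mem_filter.1 hu').1 (fun h => htu (by rw [h]))
      rwa [show t' - i * T0 - (u' - i * T0) = t' - u' by ring]
    have h3 : ∑ n ∈ Icc 1 x, ‖a n * ph (i * T0) n‖ ^ 2 ≤ G := by
      refine le_trans (le_of_eq ?_) hG
      exact sum_congr rfl fun n _ => by rw [norm_mul, ph_norm, mul_one]
    have h4 : ∀ t ∈ V, U ≤ ‖∑ n ∈ Icc 1 x, a n * ph (i * T0) n * ph t n‖ := by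
      intro t ht
      rw [hV, mem_image] at ht
      obtain ⟨u, hu, rfl⟩ := ht
      have h5 := hWU u (mem_filter.1 hu).1
      have e : ∑ n ∈ Icc 1 x, a n * ph (i * T0) n * ph (u - i * T0) n =
          ∑ n ∈ Icc 1 x, a n * ph u n := by
        refine sum_congr rfl fun n _ => ?_
        rw [mul_assoc, ← ph_add]
        congr 2
        ring
      rw [e]
      exact h5
    have h5 := hm x hx T0 hT0p.le V h1 h2 (fun n => a n * ph (i * T0) n) U G hU h3 h4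
    rw [hVc] at h5
    set c : ℝ := ((W.filter (fun t => ⌊t / T0⌋₊ = i)).card : ℝ) with hcdef
    have h6 : Real.log (T0 + 1) ≤ Real.log ((x : ℝ) ^ 2 + 1) :=
      Real.log_le_log (by linarith) (by linarith)
    have h7 : U ^ 2 * c ≤ G * (x * A1 x) + c * (U ^ 2 / 2) := by
      rw [← hsq]
      refine h5.trans ?_
      have h8 : (x : ℝ) + ((Nat.log 2 x : ℝ) + 1) * (84 * x * (1 + Real.log (T0 + 1)) +
          c * (14 * Real.sqrt (T0 * (1 + Real.log x)))) ≤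
          x * A1 x + c * (((Nat.log 2 x : ℝ) + 1) * (14 * Real.sqrt (T0 * (1 + Real.log x)))) := by
        unfold A1
        have h9 : ((Nat.log 2 x : ℝ) + 1) * (84 * x * (1 + Real.log (T0 + 1))) ≤
            ((Nat.log 2 x : ℝ) + 1) * (84 * x * (1 + Real.log ((x : ℝ) ^ 2 + 1))) := by gcongr
        linarith
      calc _ ≤ G * (x * A1 x + c * (((Nat.log 2 x : ℝ) + 1) *
            (14 * Real.sqrt (T0 * (1 + Real.log x))))) := mul_le_mul_of_nonneg_left h8 hG0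
        _ = _ := by ring
    have h10 : c * U ^ 2 ≤ 2 * A1 x * (G * x) := by linarith
    rw [mul_div_assoc', le_div_iff₀ (by positivity)]
    exact h10
  have hcard : (W.card : ℝ) ≤ (T / T0 + 1) * (2 * A1 x * (G * x / U ^ 2)) := by
    have h1 : W.card = ∑ i ∈ range (⌊T / T0⌋₊ + 1), (W.filter (fun t => ⌊t / T0⌋₊ = i)).card := by
      apply card_eq_sum_card_fiberwise
      intro t ht
      have h2 := hW t ht
      simp only [coe_range, Set.mem_Iio]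
      have : t / T0 ≤ T / T0 := div_le_div_of_nonneg_right h2.2 hT0p.le
      have := Nat.floor_le_floor this
      omega
    rw [h1]
    push_cast
    calc ∑ i ∈ range (⌊T / T0⌋₊ + 1), ((W.filter (fun t => ⌊t / T0⌋₊ = i)).card : ℝ)
        ≤ ∑ _i ∈ range (⌊T / T0⌋₊ + 1), 2 * A1 x * (G * x / U ^ 2) := sum_le_sum fun i _ => hblk i
      _ = ((⌊T / T0⌋₊ : ℝ) + 1) * (2 * A1 x * (G * x / U ^ 2)) := by
          rw [sum_const, card_range, nsmul_eq_mul]; push_cast; ring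
      _ ≤ _ := by
          apply mul_le_mul_of_nonneg_right _ (by positivity)
          have := Nat.floor_le (div_nonneg hT hT0p.le)
          linarith
  refine hcard.trans (le_of_eq ?_)
  rw [hT0]
  field_simp
  ring

lemma log_pow (δ : ℝ) (hδ : 0 < δ) (x : ℕ) (hx : 1 ≤ x) :
    (1 + 2 * Real.log x) ^ 5 ≤ (1 + 10 / δ) ^ 5 * (x : ℝ) ^ δ := by
  have hx1 : (1 : ℝ) ≤ x := by exact_mod_cast hx
  have hx0 : (0 : ℝ) < x := by linarith
  have hl0 : 0 ≤ Real.log x := Real.log_nonneg hx1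
  have h1 : Real.log x ≤ (x : ℝ) ^ (δ / 5) / (δ / 5) := Real.log_le_rpow_div hx0.le (by positivity)
  have h2 : 1 ≤ (x : ℝ) ^ (δ / 5) := Real.one_le_rpow hx1 (by positivity)
  have h3 : 1 + 2 * Real.log x ≤ (1 + 10 / δ) * (x : ℝ) ^ (δ / 5) := by
    calc 1 + 2 * Real.log x ≤ (x : ℝ) ^ (δ / 5) + 2 * ((x : ℝ) ^ (δ / 5) / (δ / 5)) := by linarith
      _ = (1 + 10 / δ) * (x : ℝ) ^ (δ / 5) := by field_simp; ring
  calc (1 + 2 * Real.log x) ^ 5 ≤ ((1 + 10 / δ) * (x : ℝ) ^ (δ / 5)) ^ 5 :=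
        pow_le_pow_left₀ (by positivity) h3 5
    _ = (1 + 10 / δ) ^ 5 * (x : ℝ) ^ δ := by
        rw [mul_pow, ← Real.rpow_natCast ((x : ℝ) ^ (δ / 5)) 5, ← Real.rpow_mul hx0.le]
        congr 2
        push_cast
        ring

lemma A_le (x : ℕ) (hx : 1 ≤ x) : A1 x ≤ 337 * (1 + 2 * Real.log x) ^ 5 ∧
    A1 x * A2 x ^ 2 ≤ 66052 * (1 + 2 * Real.log x) ^ 5 := by
  have hx1 : (1 : ℝ) ≤ x := by exact_mod_cast hx
  have hx0 : (0 : ℝ) < x := by linarith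
  have hl0 : 0 ≤ Real.log x := Real.log_nonneg hx1
  have h1 : (Nat.log 2 x : ℝ) ≤ 2 * Real.log x := by
    have hlogs' : 0.6931471803 < Real.log 2 := Real.log_two_gt_d9
    have h2 : 2 ^ (Nat.log 2 x) ≤ x := Nat.pow_log_le_self 2 (by omega)
    have h3 : ((2 : ℝ)) ^ (Nat.log 2 x) ≤ x := by exact_mod_cast h2
    have h6 := Real.log_le_log (by positivity) h3
    rw [Real.log_pow] at h6
    have h0 : (0 : ℝ) ≤ (Nat.log 2 x : ℝ) := Nat.cast_nonneg _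
    nlinarith
  have h2 : Real.log ((x : ℝ) ^ 2 + 1) ≤ 1 + 2 * Real.log x := by
    have h3 : (x : ℝ) ^ 2 + 1 ≤ 2 * (x : ℝ) ^ 2 := by nlinarith
    have h4 := Real.log_le_log (by positivity) h3
    rw [Real.log_mul (by norm_num) (by positivity), Real.log_pow] at h4
    have h5 : Real.log 2 < 1 := by
      have := Real.log_two_lt_d9
      linarith
    push_cast at h4
    linarith
  obtain ⟨y, hy⟩ : ∃ y : ℝ, y = 1 + 2 * Real.log x := ⟨_, rfl⟩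
  have hy1 : 1 ≤ y := by linarith
  rw [← hy] at h2 ⊢
  have h3 : (Nat.log 2 x : ℝ) + 1 ≤ y := by linarith
  have h30 : (0 : ℝ) ≤ (Nat.log 2 x : ℝ) + 1 := by positivity
  have hll : 0 ≤ Real.log ((x : ℝ) ^ 2 + 1) := Real.log_nonneg (by nlinarith)
  have hA : A1 x ≤ 337 * y ^ 2 := by
    unfold A1
    calc 1 + ((Nat.log 2 x : ℝ) + 1) * (84 * (1 + Real.log ((x : ℝ) ^ 2 + 1)))
        ≤ 1 + y * (84 * (1 + y)) := by gcongr
      _ ≤ 337 * y ^ 2 := by nlinarith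
  have hA0 : 0 ≤ A1 x := by unfold A1; positivity
  have hB : A2 x ^ 2 ≤ 196 * y ^ 3 := by
    unfold A2
    rw [mul_pow, mul_pow, Real.sq_sqrt (by linarith)]
    have h4 : 1 + Real.log x ≤ y := by linarith
    calc ((Nat.log 2 x : ℝ) + 1) ^ 2 * (14 ^ 2 * (1 + Real.log x)) ≤ y ^ 2 * (14 ^ 2 * y) := by gcongr
      _ = 196 * y ^ 3 := by ring
  constructor
  · calc A1 x ≤ 337 * y ^ 2 := hA
      _ ≤ 337 * y ^ 5 := by
          have := pow_le_pow_right₀ hy1 (show 2 ≤ 5 by norm_num)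
          linarith
  · calc A1 x * A2 x ^ 2 ≤ (337 * y ^ 2) * (196 * y ^ 3) :=
          mul_le_mul hA hB (by positivity) (by positivity)
      _ = 66052 * y ^ 5 := by ring

/-- a large value estimate, `p` is a function of `σ` -/
def LV (p : ℝ → ℝ) : Prop := ∀ δ : ℝ, 0 < δ → ∃ K : ℝ, 0 < K ∧
  ∀ (σ : ℝ) (x : ℕ) (T β g U : ℝ) (W : Finset ℝ) (a : ℕ → ℂ), 1 ≤ x → 0 ≤ T → 1 ≤ β → 1 ≤ g → 0 < U →
    (∀ t ∈ W, 0 ≤ t ∧ t ≤ T) → Sep W → ∑ n ∈ Icc 1 x, ‖a n‖ ^ 2 ≤ g * x →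
    (x : ℝ) ^ σ ≤ β * U → (∀ t ∈ W, U ≤ ‖∑ n ∈ Icc 1 x, a n * ph t n‖) →
    (W.card : ℝ) ≤ K * (x : ℝ) ^ δ * (g ^ 3 * β ^ 6) *
      ((x : ℝ) ^ (2 - 2 * σ) + T * (x : ℝ) ^ (-(p σ)))

theorem lv_one : LV (fun σ => 2 * σ - 1) := by
  intro δ hδ
  obtain ⟨K, hK, h⟩ := moment_R δ hδ 1
  refine ⟨K, hK, ?_⟩
  intro σ x T β g U W a hx hT hβ hg hU hW hsep hG hxU hWU
  have hx1 : (1 : ℝ) ≤ x := by exact_mod_cast hx
  have hx0 : (0 : ℝ) < x := by linarith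
  have h1 := h x T hx hT W hW hsep a
  simp only [mul_one, pow_one] at h1
  have h2 : (W.card : ℝ) * U ^ 2 ≤ ∑ t ∈ W, ‖∑ n ∈ Icc 1 x, a n * ph t n‖ ^ 2 := by
    calc (W.card : ℝ) * U ^ 2 = ∑ _t ∈ W, U ^ 2 := by rw [sum_const, nsmul_eq_mul]
      _ ≤ _ := sum_le_sum fun t ht => pow_le_pow_left₀ hU.le (hWU t ht) 2
  have h3 : (W.card : ℝ) * U ^ 2 ≤ K * (x : ℝ) ^ δ * (T + x) * (g * x) := by
    refine h2.trans (h1.trans ?_)
    have h5 : 0 ≤ ∑ n ∈ Icc 1 x, ‖a n‖ ^ 2 := sum_nonneg fun _ _ => by positivity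
    gcongr
  have h6 : (x : ℝ) ^ (2 * σ) ≤ β ^ 2 * U ^ 2 := by
    calc (x : ℝ) ^ (2 * σ) = ((x : ℝ) ^ σ) ^ 2 := by
          rw [← Real.rpow_natCast ((x : ℝ) ^ σ) 2, ← Real.rpow_mul hx0.le]
          congr 1; push_cast; ring
      _ ≤ (β * U) ^ 2 := pow_le_pow_left₀ (by positivity) hxU 2
      _ = β ^ 2 * U ^ 2 := by ring
  have h7 : (W.card : ℝ) * (x : ℝ) ^ (2 * σ) ≤ K * (x : ℝ) ^ δ * (g ^ 3 * β ^ 6) * ((T + x) * x) := by
    calc (W.card : ℝ) * (x : ℝ) ^ (2 * σ) ≤ W.card * (β ^ 2 * U ^ 2) :=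
          mul_le_mul_of_nonneg_left h6 (Nat.cast_nonneg _)
      _ = β ^ 2 * (W.card * U ^ 2) := by ring
      _ ≤ β ^ 2 * (K * (x : ℝ) ^ δ * (T + x) * (g * x)) := mul_le_mul_of_nonneg_left h3 (by positivity)
      _ = K * (x : ℝ) ^ δ * (g * β ^ 2) * ((T + x) * x) := by ring
      _ ≤ K * (x : ℝ) ^ δ * (g ^ 3 * β ^ 6) * ((T + x) * x) := by
          have h8 : g ≤ g ^ 3 := le_self_pow₀ hg (by norm_num)
          have h9 : β ^ 2 ≤ β ^ 6 := pow_le_pow_right₀ hβ (by norm_num)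
          gcongr
  have h10 : (x : ℝ) ^ (2 - 2 * σ) + T * (x : ℝ) ^ (-(2 * σ - 1)) =
      (T + x) * x / (x : ℝ) ^ (2 * σ) := by
    rw [Real.rpow_sub hx0, show -(2 * σ - 1) = 1 - 2 * σ by ring, Real.rpow_sub hx0, Real.rpow_one]
    have : (x : ℝ) ^ (2 : ℝ) = (x : ℝ) ^ 2 := by exact_mod_cast Real.rpow_natCast (x : ℝ) 2
    rw [this]
    have h11 : (x : ℝ) ^ (2 * σ) ≠ 0 := by positivity
    field_simp
    ring
  simp only
  rw [h10, mul_div_assoc', le_div_iff₀ (by positivity)]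
  exact h7

theorem lv_two : LV (fun σ => 6 * σ - 4) := by
  intro δ hδ
  obtain ⟨c0, hc0⟩ : ∃ c0 : ℝ, c0 = (1 + 10 / δ) ^ 5 := ⟨_, rfl⟩
  have hc0p : 0 < c0 := by rw [hc0]; positivity
  refine ⟨(8 * 66052) * c0, by positivity, ?_⟩
  intro σ x T β g U W a hx hT hβ hg hU hW hsep hG hxU hWU
  have hx1 : (1 : ℝ) ≤ x := by exact_mod_cast hx
  have hx0 : (0 : ℝ) < x := by linarith
  have h1 := hux x hx T hT W hW hsep a U (g * x) hU hG hWU
  obtain ⟨hA, hB⟩ := A_le x hx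
  have hlp := log_pow δ hδ x hx
  rw [← hc0] at hlp
  have hsig : (x : ℝ) ^ σ > 0 := Real.rpow_pos_of_pos hx0 _
  obtain ⟨s, hs⟩ : ∃ s : ℝ, s = (x : ℝ) ^ σ := ⟨_, rfl⟩
  rw [← hs] at hxU hsig
  have hs0 : 0 < s := hsig
  have h2 : 1 / U ≤ β / s := by
    rw [div_le_div_iff₀ hU hs0]
    linarith
  have h3 : g * x * x / U ^ 2 ≤ (g ^ 3 * β ^ 6) * (x : ℝ) ^ (2 - 2 * σ) := by
    have e : (x : ℝ) ^ (2 - 2 * σ) = (x : ℝ) ^ 2 / s ^ 2 := by
      rw [Real.rpow_sub hx0, hs, ← Real.rpow_natCast ((x : ℝ) ^ σ) 2, ← Real.rpow_mul hx0.le,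
        ← Real.rpow_natCast (x : ℝ) 2]
      congr 2 <;> push_cast <;> ring
    have h4 : (1 / U) ^ 2 ≤ (β / s) ^ 2 := pow_le_pow_left₀ (by positivity) h2 2
    calc g * x * x / U ^ 2 = g * (x : ℝ) ^ 2 * (1 / U) ^ 2 := by field_simp
      _ ≤ g * (x : ℝ) ^ 2 * (β / s) ^ 2 := mul_le_mul_of_nonneg_left h4 (by positivity)
      _ = (g * β ^ 2) * ((x : ℝ) ^ 2 / s ^ 2) := by ring
      _ ≤ (g ^ 3 * β ^ 6) * ((x : ℝ) ^ 2 / s ^ 2) := by
          have h8 : g ≤ g ^ 3 := le_self_pow₀ hg (by norm_num)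
          have h9 : β ^ 2 ≤ β ^ 6 := pow_le_pow_right₀ hβ (by norm_num)
          gcongr
      _ = _ := by rw [e]
  have h5 : T * ((g * x) ^ 3 * x / U ^ 6) ≤ (g ^ 3 * β ^ 6) * (T * (x : ℝ) ^ (-(6 * σ - 4))) := by
    have e : (x : ℝ) ^ (-(6 * σ - 4)) = (x : ℝ) ^ 4 / s ^ 6 := by
      rw [hs, ← Real.rpow_natCast ((x : ℝ) ^ σ) 6, ← Real.rpow_mul hx0.le,
        ← Real.rpow_natCast (x : ℝ) 4, ← Real.rpow_sub hx0]
      congr 1
      push_cast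
      ring
    have h4 : (1 / U) ^ 6 ≤ (β / s) ^ 6 := pow_le_pow_left₀ (by positivity) h2 6
    calc T * ((g * x) ^ 3 * x / U ^ 6) = T * (g ^ 3 * (x : ℝ) ^ 4) * (1 / U) ^ 6 := by field_simp
      _ ≤ T * (g ^ 3 * (x : ℝ) ^ 4) * (β / s) ^ 6 := by gcongr
      _ = (g ^ 3 * β ^ 6) * (T * ((x : ℝ) ^ 4 / s ^ 6)) := by ring
      _ = _ := by rw [e]
  obtain ⟨P, hP⟩ : ∃ P : ℝ, P = (x : ℝ) ^ (2 - 2 * σ) := ⟨_, rfl⟩
  obtain ⟨Q, hQ⟩ : ∃ Q : ℝ, Q = T * (x : ℝ) ^ (-(6 * σ - 4)) := ⟨_, rfl⟩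
  have hP0 : 0 ≤ P := by rw [hP]; positivity
  have hQ0 : 0 ≤ Q := by rw [hQ]; positivity
  simp only
  rw [← hP] at h3 ⊢
  rw [← hQ] at h5 ⊢
  have hA0 : 0 ≤ A1 x := by
    unfold A1
    have hlx2 : 0 ≤ Real.log ((x : ℝ) ^ 2 + 1) := Real.log_nonneg (by nlinarith)
    positivity
  calc (W.card : ℝ) ≤ 2 * A1 x * (g * x * x / U ^ 2) +
        8 * (A1 x * A2 x ^ 2) * (T * ((g * x) ^ 3 * x / U ^ 6)) := h1
    _ ≤ 2 * A1 x * ((g ^ 3 * β ^ 6) * P) + 8 * (A1 x * A2 x ^ 2) * ((g ^ 3 * β ^ 6) * Q) := by gcongr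
    _ ≤ (8 * (66052 * (c0 * (x : ℝ) ^ δ))) * ((g ^ 3 * β ^ 6) * P) +
        8 * (66052 * (c0 * (x : ℝ) ^ δ)) * ((g ^ 3 * β ^ 6) * Q) := by
        have h13 : 0 ≤ c0 * (x : ℝ) ^ δ := by positivity
        have h11 : 2 * A1 x ≤ 8 * (66052 * (c0 * (x : ℝ) ^ δ)) := by linarith
        have h12 : A1 x * A2 x ^ 2 ≤ 66052 * (c0 * (x : ℝ) ^ δ) := by linarith
        gcongr
    _ = _ := by ring

end Run7.h415.LV
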