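import Pool.Agent.Run7.h415.LV.Box

set_option autoImplicit false

/-!
# Large values of convolutions
-/

namespace Run7.h415.LV

open Finset Pool.Agent.TH705.DL
open Pool.Agent.TH445.MQ
open Run7.h415.MQP
open Pool.Agent.W200.MR (pw)

/-- the lengths of the factors of a box -/
def bM {J : ℕ} (L : ℕ) (a : Fin J → ℕ) (j : Fin J) : ℕ := min (2 ^ (a j + 1)) L

/-- the factors of a box -/
def bc {J : ℕ} (c : Fin J → ℕ → ℂ) (a : Fin J → ℕ) (j : Fin J) (n : ℕ) : ℂ :=
  if Nat.log 2 n = a j then c j n else 0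

lemma box_decomp {J : ℕ} (L N : ℕ) (c : Fin J → ℕ → ℂ) (n : ℕ) (hn : 1 ≤ n) (hnN : n ≤ 2 * N) :
    cvf (fun _ : Fin J => L) c n = ∑ a ∈ Fintype.piFinset fun _ : Fin J => range (Nat.log 2 (2 * N) + 1),
      cvf (bM L a) (bc c a) n := by
  classical
  unfold cvf
  rw [← sum_fiberwise_of_maps_to
    (s := (Fintype.piFinset fun _ : Fin J => Icc 1 L).filter (fun f => ∏ j, f j = n))
    (t := Fintype.piFinset fun _ : Fin J => range (Nat.log 2 (2 * N) + 1))
    (g := fun f j => Nat.log 2 (f j))]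
  · refine sum_congr rfl fun a _ => ?_
    rw [← sum_filter_add_sum_filter_not
      ((Fintype.piFinset fun j => Icc 1 (bM L a j)).filter (fun f => ∏ j, f j = n))
      (fun f => (fun j => Nat.log 2 (f j)) = a)]
    have h0 : ∑ f ∈ ((Fintype.piFinset fun j => Icc 1 (bM L a j)).filter
        (fun f => ∏ j, f j = n)).filter (fun f => ¬ (fun j => Nat.log 2 (f j)) = a),
        ∏ j, bc c a j (f j) = 0 := by
      apply sum_eq_zero
      intro f hf
      rw [mem_filter] at hf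
      have h1 : ∃ j, Nat.log 2 (f j) ≠ a j := by
        by_contra h
        push Not at h
        exact hf.2 (funext h)
      obtain ⟨j, hj⟩ := h1
      apply prod_eq_zero (mem_univ j)
      unfold bc
      rw [if_neg hj]
    rw [h0, add_zero]
    have hset : (((Fintype.piFinset fun _ : Fin J => Icc 1 L).filter (fun f => ∏ j, f j = n)).filter
        (fun f => (fun j => Nat.log 2 (f j)) = a)) =
        (((Fintype.piFinset fun j => Icc 1 (bM L a j)).filter (fun f => ∏ j, f j = n)).filter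
        (fun f => (fun j => Nat.log 2 (f j)) = a)) := by
      ext f
      simp only [mem_filter, Fintype.mem_piFinset, mem_Icc]
      constructor
      · rintro ⟨⟨h1, h2⟩, h3⟩
        refine ⟨⟨fun j => ⟨(h1 j).1, ?_⟩, h2⟩, h3⟩
        unfold bM
        rw [le_min_iff]
        refine ⟨?_, (h1 j).2⟩
        have h4 : Nat.log 2 (f j) = a j := congrFun h3 j
        rw [← h4]
        exact (Nat.lt_pow_succ_log_self (by norm_num) (f j)).le
      · rintro ⟨⟨h1, h2⟩, h3⟩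
        refine ⟨⟨fun j => ⟨(h1 j).1, ?_⟩, h2⟩, h3⟩
        exact (h1 j).2.trans (min_le_right _ _)
    rw [hset]
    refine sum_congr rfl fun f hf => ?_
    rw [mem_filter] at hf
    refine prod_congr rfl fun j _ => ?_
    unfold bc
    rw [if_pos (congrFun hf.2 j)]
  · intro f hf
    rw [mem_filter, Fintype.mem_piFinset] at hf
    rw [Fintype.mem_piFinset]
    intro j
    rw [mem_range]
    have h1 : f j ∣ n := by rw [← hf.2]; exact dvd_prod_of_mem f (mem_univ j)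
    have h2 : f j ≤ 2 * N := (Nat.le_of_dvd hn h1).trans hnN
    have := Nat.log_mono_right (b := 2) h2
    omega

/-- boxes which are too long contribute nothing -/
lemma box_zero {J : ℕ} (L N : ℕ) (c : Fin J → ℕ → ℂ) (a : Fin J → ℕ)
    (ha : 2 * N < ∏ j, 2 ^ (a j)) (n : ℕ) (hn : n ≤ 2 * N) : cvf (bM L a) (bc c a) n = 0 := by
  classical
  unfold cvf
  apply sum_eq_zero
  intro f hf
  rw [mem_filter, Fintype.mem_piFinset] at hf
  by_contra h
  have h1 : ∀ j, 2 ^ (a j) ≤ f j := by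
    intro j
    have h2 : bc c a j (f j) ≠ 0 := (prod_ne_zero_iff.1 h) j (mem_univ j)
    unfold bc at h2
    have h3 : Nat.log 2 (f j) = a j := by
      by_contra h4
      rw [if_neg h4] at h2
      exact h2 rfl
    rw [← h3]
    apply Nat.pow_log_le_self
    have := (mem_Icc.1 (hf.1 j)).1
    omega
  have h2 : ∏ j, 2 ^ (a j) ≤ ∏ j, f j := prod_le_prod' fun j _ => h1 j
  rw [hf.2] at h2
  omega

lemma log_card (κ : ℝ) (hκ : 0 < κ) (N : ℕ) (hN : 1 ≤ N) :
    ((Nat.log 2 (2 * N) + 1 : ℕ) : ℝ) ≤ (2 + 2 / κ) * (N : ℝ) ^ κ := by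
  have hN1 : (1 : ℝ) ≤ N := by exact_mod_cast hN
  have e : Nat.log 2 (2 * N) = Nat.log 2 N + 1 := by
    rw [mul_comm]
    exact Nat.log_mul_base (by norm_num) (by omega)
  rw [e]
  have h1 : (Nat.log 2 N : ℝ) ≤ 2 * Real.log N := by
    have hlogs' : 0.6931471803 < Real.log 2 := Real.log_two_gt_d9
    have h2 : 2 ^ (Nat.log 2 N) ≤ N := Nat.pow_log_le_self 2 (by omega)
    have h3 : ((2 : ℝ)) ^ (Nat.log 2 N) ≤ N := by exact_mod_cast h2
    have h6 := Real.log_le_log (by positivity) h3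
    rw [Real.log_pow] at h6
    have h0 : (0 : ℝ) ≤ (Nat.log 2 N : ℝ) := Nat.cast_nonneg _
    nlinarith
  have h2 : Real.log N ≤ (N : ℝ) ^ κ / κ := Real.log_le_rpow_div (by linarith) hκ
  have h3 : 1 ≤ (N : ℝ) ^ κ := Real.one_le_rpow hN1 hκ.le
  push_cast
  calc (Nat.log 2 N : ℝ) + 1 + 1 ≤ 2 * (N : ℝ) ^ κ + 2 * ((N : ℝ) ^ κ / κ) := by linarith
    _ = _ := by ring

theorem conv (J : ℕ) (hJ : 1 ≤ J) (p : ℝ → ℝ) (hLV : LV p) (A σ ε c0 : ℝ) (hA : 1 ≤ A) (hε : 0 < ε)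
    (hc0 : 0 < c0) (hσ : 1 / 2 ≤ σ) (hσ1 : σ ≤ 1)
    (hp : ∀ s, σ ≤ s → s ≤ 1 → 0 ≤ p s ∧ c0 ≤ p s + (2 - 2 * s)) :
    ∃ C : ℝ, 0 < C ∧ ∀ (N L : ℕ) (T : ℝ) (c : Fin J → ℕ → ℂ) (W : Finset ℝ),
      (∀ s, σ ≤ s → s ≤ 1 → (N : ℝ) ^ (s - σ) * Bnd p L T s ≤ Bnd p L T σ) →
      1 ≤ N → 1 ≤ L → 1 ≤ T → T ≤ (N : ℝ) ^ A → (∀ j n, ‖c j n‖ ≤ 1) →
      (∀ t ∈ W, 0 ≤ t ∧ t ≤ T) → Sep W →
      (∀ t ∈ W, (N : ℝ) ^ σ < ‖∑ n ∈ Icc N (2 * N), cvf (fun _ : Fin J => L) c n * pw t n‖) →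
      (W.card : ℝ) ≤ C * (N : ℝ) ^ ε * Bnd p L T σ := by
  classical
  obtain ⟨C, E, hC, h⟩ := boxcut J hJ p hLV A (ε / 2) c0 (4 ^ J * 2) hA (by positivity) hc0
    (by have : (1 : ℝ) ≤ 4 ^ J := one_le_pow₀ (by norm_num)
        linarith)
  obtain ⟨κ, hκ⟩ : ∃ κ : ℝ, κ = ε / (2 * (J * (E + 1))) := ⟨_, rfl⟩
  have hJ0 : (0 : ℝ) < J := by exact_mod_cast hJ
  have hκ0 : 0 < κ := by rw [hκ]; positivity
  refine ⟨C * (2 + 2 / κ) ^ (J * (E + 1)), by positivity, ?_⟩
  intro N L T c W hmono hN hL hT hTN hc hW hsep hWU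
  have hN1 : (1 : ℝ) ≤ N := by exact_mod_cast hN
  have hN0 : (0 : ℝ) < N := by linarith
  have hT0 : 0 < T := by linarith
  have hG0 : 0 ≤ Bnd p L T σ := by unfold Bnd; positivity
  set K : ℕ := Nat.log 2 (2 * N) + 1 with hK
  set Q : Finset (Fin J → ℕ) := Fintype.piFinset fun _ : Fin J => range K with hQ
  have hQc : (Q.card : ℝ) = (K : ℝ) ^ J := by
    rw [hQ, Fintype.card_piFinset, prod_const, card_univ, Fintype.card_fin, card_range]
    push_cast
    rfl
  have hK1 : (1 : ℝ) ≤ K := by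
    have : 1 ≤ K := by omega
    exact_mod_cast this
  have hQ1 : (1 : ℝ) ≤ Q.card := by rw [hQc]; exact one_le_pow₀ hK1
  -- decomposition
  have hdec : ∀ t, ∑ n ∈ Icc N (2 * N), cvf (fun _ : Fin J => L) c n * pw t n =
      ∑ a ∈ Q, cut N (cv (bM L a) (bc c a)) t := by
    intro t
    unfold cut
    rw [sum_comm]
    refine sum_congr rfl fun n hn => ?_
    rw [mem_Icc] at hn
    rw [box_decomp L N c n (by omega) hn.2, sum_mul]
    refine sum_congr rfl fun a _ => ?_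
    rw [cv_apply _ _ n (by omega)]
  have hch : ∀ t ∈ W, ∃ a ∈ Q, (N : ℝ) ^ σ ≤ Q.card * ‖cut N (cv (bM L a) (bc c a)) t‖ := by
    intro t ht
    by_contra hcon
    push Not at hcon
    have h1 := hWU t ht
    rw [hdec t] at h1
    have h2 : ‖∑ a ∈ Q, cut N (cv (bM L a) (bc c a)) t‖ ≤
        ∑ _a ∈ Q, (N : ℝ) ^ σ / Q.card := by
      refine (norm_sum_le _ _).trans (sum_le_sum fun a ha => ?_)
      rw [le_div_iff₀ (by linarith), mul_comm]
      exact (hcon a ha).le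
    rw [sum_const, nsmul_eq_mul, mul_div_cancel₀ _ (by linarith : (Q.card : ℝ) ≠ 0)] at h2
    linarith
  choose! g hg1 hg2 using hch
  have hone : ∀ a ∈ Q, ((W.filter (fun t => g t = a)).card : ℝ) ≤
      C * (Q.card : ℝ) ^ E * (N : ℝ) ^ (ε / 2) * Bnd p L T σ := by
    intro a _
    rcases (W.filter (fun t => g t = a)).eq_empty_or_nonempty with h0 | ⟨t0, ht0⟩
    · rw [h0, card_empty, Nat.cast_zero]
      positivity
    rw [mem_filter] at ht0
    have hlen : ∏ j, 2 ^ (a j) ≤ 2 * N := by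
      by_contra hcon
      push Not at hcon
      have h1 := hg2 t0 ht0.1
      rw [ht0.2] at h1
      have h2 : cut N (cv (bM L a) (bc c a)) t0 = 0 := by
        unfold cut
        apply sum_eq_zero
        intro n hn
        rw [mem_Icc] at hn
        rw [cv_apply _ _ n (by omega), box_zero L N c a hcon n hn.2, zero_mul]
      rw [h2, norm_zero, mul_zero] at h1
      have : 0 < (N : ℝ) ^ σ := by positivity
      linarith
    have hM1 : ∀ j, 1 ≤ bM L a j := fun j => by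
      unfold bM
      rw [le_min_iff]
      exact ⟨Nat.one_le_two_pow, hL⟩
    have hML : ∀ j, ((bM L a j : ℕ) : ℝ) ≤ L := fun j => by
      unfold bM
      exact_mod_cast min_le_right _ _
    have hMB : ∏ j, (2 * ((bM L a j : ℕ) : ℝ)) ≤ 4 ^ J * 2 * N := by
      calc ∏ j, (2 * ((bM L a j : ℕ) : ℝ)) ≤ ∏ j : Fin J, (4 * (2 : ℝ) ^ (a j)) := by
            apply prod_le_prod (fun j _ => by positivity)
            intro j _
            have h1 : ((bM L a j : ℕ) : ℝ) ≤ ((2 ^ (a j + 1) : ℕ) : ℝ) := by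
              unfold bM
              exact_mod_cast min_le_left _ _
            push_cast at h1
            rw [pow_succ] at h1
            linarith
        _ = 4 ^ J * ∏ j, (2 : ℝ) ^ (a j) := by
            rw [prod_mul_distrib, prod_const, card_univ, Fintype.card_fin]
        _ ≤ 4 ^ J * (2 * N) := by
            apply mul_le_mul_of_nonneg_left _ (by positivity)
            exact_mod_cast hlen
        _ = _ := by ring
    have hc2 : ∀ j, ∑ n ∈ Icc 1 (bM L a j), ‖bc c a j n‖ ^ 2 ≤ ((bM L a j : ℕ) : ℝ) := by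
      intro j
      calc ∑ n ∈ Icc 1 (bM L a j), ‖bc c a j n‖ ^ 2 ≤ ∑ _n ∈ Icc 1 (bM L a j), (1 : ℝ) := by
            apply sum_le_sum
            intro n _
            unfold bc
            split_ifs
            · exact pow_le_one₀ (norm_nonneg _) (hc j n)
            · simp
        _ = _ := by rw [sum_const, Nat.card_Icc, nsmul_eq_mul]; simp
    exact h σ N T Q.card L (bM L a) (bc c a) (W.filter (fun t => g t = a)) hσ hσ1 hp hmono hN hT hTN
      hQ1 hM1 hML hMB hc2 (fun t ht => hW t (mem_filter.1 ht).1)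
      (fun t ht u hu => hsep t (mem_filter.1 ht).1 u (mem_filter.1 hu).1)
      (fun t ht => by
        rw [mem_filter] at ht
        have := hg2 t ht.1
        rwa [ht.2] at this)
  have hsumc : W.card = ∑ a ∈ Q, (W.filter (fun t => g t = a)).card :=
    card_eq_sum_card_fiberwise fun t ht => hg1 t ht
  rw [hsumc]
  push_cast
  have hKb := log_card κ hκ0 N hN
  rw [← hK] at hKb
  have e1 : (Q.card : ℝ) * (Q.card : ℝ) ^ E = (K : ℝ) ^ (J * (E + 1)) := by
    rw [hQc, ← pow_succ', ← pow_mul]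
  have e2 : ((2 + 2 / κ) * (N : ℝ) ^ κ) ^ (J * (E + 1)) =
      (2 + 2 / κ) ^ (J * (E + 1)) * (N : ℝ) ^ (ε / 2) := by
    rw [mul_pow, ← Real.rpow_natCast ((N : ℝ) ^ κ), ← Real.rpow_mul hN0.le]
    congr 2
    rw [hκ]
    push_cast
    field_simp
  calc ∑ a ∈ Q, ((W.filter (fun t => g t = a)).card : ℝ)
      ≤ ∑ _a ∈ Q, C * (Q.card : ℝ) ^ E * (N : ℝ) ^ (ε / 2) * Bnd p L T σ := sum_le_sum hone
    _ = C * ((Q.card : ℝ) * (Q.card : ℝ) ^ E) * (N : ℝ) ^ (ε / 2) * Bnd p L T σ := by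
        rw [sum_const, nsmul_eq_mul]; ring
    _ = C * (K : ℝ) ^ (J * (E + 1)) * (N : ℝ) ^ (ε / 2) * Bnd p L T σ := by rw [e1]
    _ ≤ C * ((2 + 2 / κ) * (N : ℝ) ^ κ) ^ (J * (E + 1)) * (N : ℝ) ^ (ε / 2) * Bnd p L T σ := by
        gcongr
    _ = C * (2 + 2 / κ) ^ (J * (E + 1)) * ((N : ℝ) ^ (ε / 2) * (N : ℝ) ^ (ε / 2)) * Bnd p L T σ := by
        rw [e2]; ring
    _ = C * (2 + 2 / κ) ^ (J * (E + 1)) * (N : ℝ) ^ ε * Bnd p L T σ := by
        rw [← Real.rpow_add hN0]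
        congr 3
        ring

/-- monotonicity, mean value theorem -/
lemma mono_one (N L T σ s : ℝ) (hN : 1 ≤ N) (hL : 1 ≤ L) (hT : 1 ≤ T) (hNT : N * L ^ 2 ≤ T ^ 2)
    (hσ : 1 / 2 ≤ σ) (hs : σ ≤ s) :
    N ^ (s - σ) * Bnd (fun σ => 2 * σ - 1) L T s ≤ Bnd (fun σ => 2 * σ - 1) L T σ := by
  have hN0 : 0 < N := by linarith
  have hL0 : 0 < L := by linarith
  have hT0 : 0 < T := by linarith
  have h1 := Real.log_le_log (by positivity) hNT
  rw [Real.log_mul hN0.ne' (by positivity), Real.log_pow, Real.log_pow] at h1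
  have hl : 0 ≤ Real.log L := Real.log_nonneg hL
  push_cast at h1
  unfold Bnd
  simp only
  have e : ∀ r : ℝ, 2 * r - 1 + (2 - 2 * r) = 1 := fun r => by ring
  rw [e, e, div_one, div_one, div_one, div_one, Real.rpow_def_of_pos hN0, Real.rpow_def_of_pos hL0,
    Real.rpow_def_of_pos hT0, Real.rpow_def_of_pos hL0, Real.rpow_def_of_pos hT0, ← Real.exp_add,
    ← Real.exp_add, ← Real.exp_add]
  apply Real.exp_le_exp.2
  have h2 : 0 ≤ s - σ := by linarith
  have h3 : (s - σ) * (6 - 4 * (s + σ)) * Real.log L ≤ (s - σ) * 2 * Real.log L := by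
    apply mul_le_mul_of_nonneg_right _ hl
    apply mul_le_mul_of_nonneg_left _ h2
    linarith
  have h4 : (s - σ) * (Real.log N + 2 * Real.log L) ≤ (s - σ) * (2 * Real.log T) :=
    mul_le_mul_of_nonneg_left h1 h2
  have e2 : Real.log N * (s - σ) + (Real.log L * ((2 * s - 1) * (2 - 2 * s)) + Real.log T * (2 - 2 * s)) -
      (Real.log L * ((2 * σ - 1) * (2 - 2 * σ)) + Real.log T * (2 - 2 * σ)) =
      (s - σ) * Real.log N + (s - σ) * (6 - 4 * (s + σ)) * Real.log L - (s - σ) * (2 * Real.log T) := by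
    ring
  linarith

/-- monotonicity, Halász–Montgomery–Huxley -/
lemma mono_two (N L T σ s : ℝ) (hN : 1 ≤ N) (hL : 1 ≤ L) (hNT : N ≤ T) (hLT : L ≤ T)
    (hσ : 1 / 2 < σ) (hs : σ ≤ s) (hs1 : s ≤ 1) :
    N ^ (s - σ) * Bnd (fun σ => 6 * σ - 4) L T s ≤ Bnd (fun σ => 6 * σ - 4) L T σ := by
  have hN0 : 0 < N := by linarith
  have hL0 : 0 < L := by linarith
  have hT0 : 0 < T := by linarith
  have hlN : 0 ≤ Real.log N := Real.log_nonneg hN
  have hl : 0 ≤ Real.log L := Real.log_nonneg hL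
  have h1 : Real.log N ≤ Real.log T := Real.log_le_log hN0 hNT
  have h2 : Real.log L ≤ Real.log T := Real.log_le_log hL0 hLT
  unfold Bnd
  simp only
  rw [Real.rpow_def_of_pos hN0, Real.rpow_def_of_pos hL0,
    Real.rpow_def_of_pos hT0, Real.rpow_def_of_pos hL0, Real.rpow_def_of_pos hT0, ← Real.exp_add,
    ← Real.exp_add, ← Real.exp_add]
  apply Real.exp_le_exp.2
  obtain ⟨u, hu⟩ : ∃ u : ℝ, u = 2 * s - 1 := ⟨_, rfl⟩
  obtain ⟨v, hv⟩ : ∃ v : ℝ, v = 2 * σ - 1 := ⟨_, rfl⟩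
  have hu0 : 0 < u := by rw [hu]; linarith
  have hv0 : 0 < v := by rw [hv]; linarith
  have hu1 : u ≤ 1 := by rw [hu]; linarith
  have hv1 : v ≤ 1 := by rw [hv]; linarith
  have es : s = (u + 1) / 2 := by rw [hu]; ring
  have eσ : σ = (v + 1) / 2 := by rw [hv]; ring
  have hvu : v ≤ u := by rw [hu, hv]; linarith
  have e1 : 6 * s - 4 + (2 - 2 * s) = 2 * u := by rw [hu]; ring
  have e2 : 6 * σ - 4 + (2 - 2 * σ) = 2 * v := by rw [hv]; ring
  rw [e1, e2, es, eσ]
  have huv : 0 < u * v := by positivity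
  have huv1 : u * v ≤ 1 := by nlinarith
  have key : u * v * Real.log N + (1 - 3 * (u * v)) * Real.log L - Real.log T ≤ 0 := by
    rcases le_or_gt (1 - 3 * (u * v)) 0 with h | h
    · have h3 : (1 - 3 * (u * v)) * Real.log L ≤ 0 := mul_nonpos_of_nonpos_of_nonneg h hl
      have h4 : u * v * Real.log N ≤ 1 * Real.log N := mul_le_mul_of_nonneg_right huv1 hlN
      linarith
    · have h3 : (1 - 3 * (u * v)) * Real.log L ≤ (1 - 3 * (u * v)) * Real.log T :=
        mul_le_mul_of_nonneg_left h2 h.le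
      have h4 : u * v * Real.log N ≤ u * v * Real.log T := mul_le_mul_of_nonneg_left h1 huv.le
      have h5 : 0 ≤ u * v * Real.log T := mul_nonneg huv.le (by linarith)
      linarith
  have e3 : Real.log N * ((u + 1) / 2 - (v + 1) / 2) +
      (Real.log L * ((6 * ((u + 1) / 2) - 4) * (2 - 2 * ((u + 1) / 2)) / (2 * u)) +
        Real.log T * ((2 - 2 * ((u + 1) / 2)) / (2 * u))) -
      (Real.log L * ((6 * ((v + 1) / 2) - 4) * (2 - 2 * ((v + 1) / 2)) / (2 * v)) +
        Real.log T * ((2 - 2 * ((v + 1) / 2)) / (2 * v))) =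
      (u - v) / (2 * (u * v)) *
        (u * v * Real.log N + (1 - 3 * (u * v)) * Real.log L - Real.log T) := by
    field_simp
    ring
  have h6 : (u - v) / (2 * (u * v)) *
      (u * v * Real.log N + (1 - 3 * (u * v)) * Real.log L - Real.log T) ≤ 0 :=
    mul_nonpos_of_nonneg_of_nonpos (div_nonneg (by linarith) (by positivity)) key
  linarith

end Run7.h415.LV
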